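import Pool.Agent.Mg.Fbf5815.G8d61d3

section

/-! The frozen version of a program and its simulation with time stamps. -/

namespace Pool.Agent.MP_bf5815_lc

open Ordinal Order
open scoped Classical

variable {Q : Type} (P : Prog Q)

noncomputable def hatSys : Sys (Config Q × Bool) (Option (Fin 3 × ℕ)) where
  cell x i := i.elim x.2 (fun j => x.1.tape j.1 j.2)
  step x := if x.2 = true ∨ x.1.state = P.halt then (x.1, true) else (P.step x.1, false)
  lim v := (⟨P.lim, 0, fun k n => v (some (k, n))⟩, v none)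
  cell_lim v := by
    funext i
    cases i <;> rfl
  halt x := x.2 = true
  out x := x.1.tape 2 0
  ovr x := ({ x.1 with state := P.spec }, x.2)

theorem hat_alive (c : Config Q) (t : O) (h : (rawSys P).Alive c t) :
    (hatSys P).run (c, false) t = ((rawSys P).run c t, false) := by
  induction t using Ordinal.limitRecOn with
  | zero => simp
  | add_one t ih =>
    rw [Sys.run_succ, Sys.run_succ, ih (fun s hs => h s (hs.trans (lt_add_one t)))]
    have : ¬ ((rawSys P).run c t).state = P.halt := h t (lt_add_one t)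
    simp only [hatSys, this, Bool.false_eq_true, or_self, if_false]
    rfl
  | limit l hl ih =>
    have ih' := fun s (hs : s < l) => ih s hs (fun r hr => h r (hr.trans hs))
    have h1 : (hatSys P).cell ((hatSys P).run (c, false) l) none = false :=
      (hatSys P).cell_limit_const _ hl none false hl.bot_lt (fun r _ hr => by rw [ih' r hr]; rfl)
    have h2 : ∀ j, (hatSys P).cell ((hatSys P).run (c, false) l) (some j) =
        (rawSys P).cell ((rawSys P).run c l) j := by
      intro j
      rw [Bool.eq_iff_iff, Sys.cell_limit _ _ hl, Sys.cell_limit _ _ hl]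
      constructor <;> intro H s hs <;> obtain ⟨r, h1, h2, h3⟩ := H s hs
      · exact ⟨r, h1, h2, by rw [ih' r h1] at h3; exact h3⟩
      · exact ⟨r, h1, h2, by rw [ih' r h1]; exact h3⟩
    rw [Sys.run_limit_eq _ _ hl, (rawSys P).run_limit_eq _ hl]
    show (_, _) = (_, _)
    rw [h1]
    simp only [h2]
    rfl

theorem hat_frozen (x : Config Q × Bool) (hx : x.2 = true) (t : O) :
    ((hatSys P).run x t).2 = true ∧ ((hatSys P).run x t).1.tape = x.1.tape := by
  induction t using Ordinal.limitRecOn with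
  | zero => simp [hx]
  | add_one t ih =>
    rw [Sys.run_succ]
    simp [hatSys, ih.1] at ih ⊢
    simp [ih.1, ih.2]
  | limit l hl ih =>
    constructor
    · exact (hatSys P).cell_limit_const _ hl none true hl.bot_lt (fun r _ hr => (ih r hr).1)
    · funext k n
      exact (hatSys P).cell_limit_const _ hl (some (k, n)) _ hl.bot_lt
        (fun r _ hr => congrFun (congrFun (ih r hr).2 k) n)

theorem hat_halt_step {c : Config Q} {t : O} (h1 : (rawSys P).halt ((rawSys P).run c t))
    (h2 : (rawSys P).Alive c t) :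
    (hatSys P).run (c, false) (t + 1) = ((rawSys P).run c t, true) := by
  rw [Sys.run_succ, hat_alive P c t h2]
  have : ((rawSys P).run c t).state = P.halt := h1
  simp [hatSys, this]

theorem hat_res {c : Config Q} {b : Bool} (h : (rawSys P).Res c b) :
    (hatSys P).Res (c, false) b := by
  obtain ⟨t, h1, h2, h3⟩ := h
  refine ⟨t + 1, by rw [hat_halt_step P h1 h2]; rfl, ?_, by rw [hat_halt_step P h1 h2]; exact h3⟩
  intro s hs
  rw [hat_alive P c s (fun r hr => h2 r (hr.trans_le (lt_add_one_iff.1 hs)))]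
  simp [hatSys]

theorem hat_source {α t : O} {y : ℕ → Bool} (h : P.HaltsAt α y t) :
    (hatSys P).Res ((hatSys P).ovr ((hatSys P).run (P.init y, false) α))
      ((P.run α y t).tape 2 0) := by
  rcases pres_of_halts P h with ⟨h1, h2, h3, h4⟩ | ⟨h1, h2⟩
  · obtain ⟨d, rfl⟩ := exists_add_of_le (add_one_le_iff.2 h1)
    rw [Sys.run_add, hat_halt_step P h2 h3, ← h4]
    obtain ⟨h5, h6⟩ := hat_frozen P ((rawSys P).run (P.init y) t, true) rfl d
    have := (hatSys P).res_halt (a := (hatSys P).ovr ((hatSys P).run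
      ((rawSys P).run (P.init y) t, true) d)) h5
    have e : (hatSys P).out ((hatSys P).ovr ((hatSys P).run
      ((rawSys P).run (P.init y) t, true) d)) = (rawSys P).out ((rawSys P).run (P.init y) t) :=
      congrFun (congrFun h6 2) 0
    rwa [e] at this
  · rw [hat_alive P _ _ h1]
    exact hat_res P h2

inductive TU (Q : Type)
  | tape (k : Fin 3)
  | hd
  | st (q : Q)
  | e0
  | e1
  | halted
  | ov
  | H

instance [Finite Q] : Finite (TU Q) := Finite.of_equiv _ (proxy_equiv% (TU Q))

inductive TB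
  | tape (k : Fin 3)
  | e0
  | e1
  | halted
  deriving Fintype

def TB.tr : TB → TU Q
  | .tape k => .tape k
  | .e0 => .e0
  | .e1 => .e1
  | .halted => .halted

def isL (c : TU Q → Bool) : Bool := c .e0 && c .e1

noncomputable def effSt (c : TU Q → Bool) : Q :=
  if c .ov = true then P.spec else if isL c = true then P.lim else
    if h : ∃ q, c (.st q) = true then h.choose else P.start

noncomputable def frz (c : TU Q → Bool) : Bool := c .halted || decide (effSt P c = P.halt)

def effHd (c0 c : TU Q → Bool) (z : Bool) : Bool := if isL c0 = true then z else c .hd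

noncomputable def utr (a : Fin 3 → Bool) (c0 : TU Q → Bool) : Q × (Fin 3 → Bool) × Bool :=
  P.trans (effSt P c0) (fun k => if isL c0 = true then c0 (.tape k) else a k)

noncomputable def nb (a : Fin 3 → Bool) (c0 c : TU Q → Bool) (z : Bool) : TB → Bool
  | .tape k => if frz P c0 = false ∧ effHd c0 c z = true then (utr P a c0).2.1 k else c (.tape k)
  | .e0 => c .e1
  | .e1 => !c .e1
  | .halted => frz P c0

variable {M : ℕ} (dec : Fin (M + 1) → TB × TU Q)

noncomputable def uUpd (a : Fin 3 → Bool) (l : Loc (TU Q) M) : TU Q → Bool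
  | .tape k => nb P a l.c0 l.cur l.u0 (.tape k)
  | .e0 => nb P a l.c0 l.cur l.u0 .e0
  | .e1 => nb P a l.c0 l.cur l.u0 .e1
  | .halted => nb P a l.c0 l.cur l.u0 .halted
  | .hd => if frz P l.c0 = true then effHd l.c0 l.cur l.u0 else
      if (utr P a l.c0).2.2 = true then (!l.u0 && effHd l.c0 l.prev l.p0)
      else (effHd l.c0 l.next false || (l.u0 && effHd l.c0 l.cur l.u0))
  | .st q => decide (q = if frz P l.c0 = true then effSt P l.c0 else (utr P a l.c0).1)
  | .ov => false
  | .H => if nb P a l.c0 l.cz l.z0 (dec l.r).1 = l.cz (dec l.r).1.tr then l.cur .H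
      else l.cw (dec l.r).2

noncomputable def uIni (z b : Bool) : TU Q → Bool
  | .tape k => if k = 0 then b else false
  | .hd => z
  | .st q => decide (q = P.start)
  | .e0 => true
  | _ => false

noncomputable def uProg : MProg (TU Q) (Fin 3) M where
  ini := uIni P
  contrib c k := c .hd && c (.tape k)
  upd := uUpd P dec
  stop c := c .halted = true
  out c := c (.tape 2)
  jump c := Function.update c .ov true

noncomputable abbrev uSys := mSys (uProg P dec)

theorem u_tracked (u : ℕ → TU Q → Bool) (n : ℕ) (b : TB) :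
    (uSys P dec).step u n b.tr = nb P ((uProg P dec).acc u) (u 0) (u n) (decide (n = 0)) b := by
  cases b <;> rfl

theorem u_ov (u : ℕ → TU Q → Bool) (n : ℕ) (t : O) (ht : 0 < t) :
    (uSys P dec).run u t n .ov = false := by
  induction t using Ordinal.limitRecOn with
  | zero => exact absurd ht (lt_irrefl _)
  | add_one t ih => rw [Sys.run_succ]; rfl
  | limit l hl ih =>
    exact (uSys P dec).cell_limit_const u hl (.ov, n) false (by simpa using hl.add_one_lt hl.bot_lt)
      (fun r h1 h2 => ih r h2 (lt_of_lt_of_le zero_lt_one h1))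

theorem u_e1_limit (u : ℕ → TU Q → Bool) (n : ℕ) {l : O} (hl : IsSuccLimit l) :
    (uSys P dec).run u l n .e1 = true := by
  apply ((uSys P dec).cell_limit u hl (.e1, n)).2
  intro s hs
  cases h : (uSys P dec).run u s n .e1 with
  | true => exact ⟨s, hs, le_rfl, h⟩
  | false =>
    refine ⟨s + 1, hl.add_one_lt hs, (lt_add_one s).le, ?_⟩
    rw [Sys.run_succ]
    show (!(uSys P dec).run u s n .e1) = true
    rw [h]; rfl

theorem u_e0_limit (u : ℕ → TU Q → Bool) (n : ℕ) {l : O} (hl : IsSuccLimit l) :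
    (uSys P dec).run u l n .e0 = true := by
  apply ((uSys P dec).cell_limit u hl (.e0, n)).2
  intro s hs
  obtain ⟨r, h1, h2, h3⟩ := ((uSys P dec).cell_limit u hl (.e1, n)).1 (u_e1_limit P dec u n hl) s hs
  refine ⟨r + 1, hl.add_one_lt h1, h2.trans (lt_add_one r).le, ?_⟩
  rw [Sys.run_succ]
  exact h3

theorem isL_limit (u : ℕ → TU Q → Bool) {l : O} (hl : IsSuccLimit l) :
    isL ((uSys P dec).run u l 0) = true := by
  simp [isL, u_e0_limit P dec u 0 hl, u_e1_limit P dec u 0 hl]

theorem isL_step (u : ℕ → TU Q → Bool) : isL ((uSys P dec).step u 0) = false := by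
  show (u 0 .e1 && !u 0 .e1) = false
  simp

def RU (u : ℕ → TU Q → Bool) (x : Config Q × Bool) : Prop :=
  (∀ k n, u n (.tape k) = x.1.tape k n) ∧ u 0 .halted = x.2 ∧ effSt P (u 0) = x.1.state ∧
    ∀ n, effHd (u 0) (u n) (decide (n = 0)) = decide (n = x.1.head)

theorem RU_step {u : ℕ → TU Q → Bool} {x : Config Q × Bool} (h : RU P u x) :
    RU P ((uSys P dec).step u) ((hatSys P).step x) := by
  obtain ⟨⟨s, p, T⟩, hh⟩ := x
  obtain ⟨h1, h2, h3, h4⟩ := h
  simp only at h1 h2 h3 h4
  have e1 : utr P ((uProg P dec).acc u) (u 0) = P.trans s (fun k => T k p) := by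
    rw [utr, h3]
    congr 1
    funext k
    by_cases hL : isL (u 0) = true
    · have := h4 0
      simp only [effHd, hL, if_true, decide_true] at this
      have hp : 0 = p := by simpa using this
      rw [if_pos hL, h1, hp]
    · rw [if_neg hL, Bool.eq_iff_iff]
      simp only [effHd, hL] at h4
      simp only [MProg.acc, uProg, decide_eq_true_eq, Bool.and_eq_true]
      constructor
      · rintro ⟨n, h5, h6⟩
        have := h4 n
        simp only [Bool.false_eq_true, if_false, h5] at this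
        have hp : n = p := by simpa using this
        rw [← hp, ← h1, h6]
      · intro h5
        have := h4 p
        simp only [Bool.false_eq_true, if_false, decide_true] at this
        exact ⟨p, this, by rw [h1, h5]⟩
  have e2 : frz P (u 0) = decide (hh = true ∨ s = P.halt) := by
    rw [frz, h2, h3]
    cases hh <;> simp
  have e3 : ∀ q, effSt P ((uSys P dec).step u 0) = q ↔
      q = if frz P (u 0) = true then s else (P.trans s (fun k => T k p)).1 := by
    have : effSt P ((uSys P dec).step u 0) =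
        if frz P (u 0) = true then s else (P.trans s (fun k => T k p)).1 := by
      rw [effSt, isL_step]
      have e4 : ∀ q, (uSys P dec).step u 0 (.st q) = decide
          (q = if frz P (u 0) = true then s else (P.trans s (fun k => T k p)).1) := by
        intro q
        rw [← e1, ← h3]
        rfl
      have e5 : ∃ q, (uSys P dec).step u 0 (.st q) = true := ⟨_, by rw [e4, decide_eq_true rfl]⟩
      have e6 : (uSys P dec).step u 0 .ov = false := rfl
      rw [e6]
      simp only [Bool.false_eq_true, if_false, dif_pos e5]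
      have := e5.choose_spec
      rw [e4] at this
      simpa using this
    intro q
    rw [this, eq_comm]
  have e4 : ∀ n, effHd ((uSys P dec).step u 0) ((uSys P dec).step u n) (decide (n = 0)) =
      if frz P (u 0) = true then decide (n = p) else
      if (P.trans s (fun k => T k p)).2.2 = true then (!decide (n = 0) && decide (n - 1 = p))
      else (decide (n + 1 = p) || (decide (n = 0) && decide (n = p))) := by
    intro n
    rw [effHd, isL_step, ← e1, ← h4 n, ← h4 (n - 1), ← h4 (n + 1)]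
    rfl
  have e5 : ∀ k n, (uSys P dec).step u n (.tape k) = if frz P (u 0) = false ∧ n = p then
      (P.trans s (fun k => T k p)).2.1 k else T k n := by
    intro k n
    have := u_tracked P dec u n (.tape k)
    simp only [TB.tr, nb, e1, h4, h1, decide_eq_true_eq] at this
    exact this
  have e6 : (uSys P dec).step u 0 .halted = frz P (u 0) := rfl
  by_cases hf : hh = true ∨ s = P.halt
  · have e7 : (hatSys P).step (⟨s, p, T⟩, hh) = (⟨s, p, T⟩, true) := by simp [hatSys, hf]
    rw [decide_eq_true hf] at e2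
    rw [e7]
    refine ⟨fun k n => by rw [e5]; simp [e2], by rw [e6, e2], by rw [e3]; simp [e2],
      fun n => by rw [e4]; simp [e2]⟩
  · have e7 : (hatSys P).step (⟨s, p, T⟩, hh) = (P.step ⟨s, p, T⟩, false) := by
      simp only [hatSys]; rw [if_neg hf]
    rw [decide_eq_false hf] at e2
    rw [e7]
    refine ⟨fun k n => by rw [e5]; simp [e2, Prog.step], by rw [e6, e2],
      by rw [e3]; simp [e2, Prog.step], fun n => ?_⟩
    rw [e4]
    simp only [e2, Prog.step, Bool.false_eq_true, if_false]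
    split_ifs
    · rw [Bool.eq_iff_iff]; simp; omega
    · rw [Bool.eq_iff_iff]; simp; omega

theorem RU_run {u : ℕ → TU Q → Bool} {x : Config Q × Bool} (h : RU P u x) (t : O) :
    RU P ((uSys P dec).run u t) ((hatSys P).run x t) := by
  induction t using Ordinal.limitRecOn with
  | zero => simpa using h
  | add_one t ih => rw [Sys.run_succ, Sys.run_succ]; exact RU_step P dec ih
  | limit l hl ih =>
    have e : ((hatSys P).run x l).1.state = P.lim ∧ ((hatSys P).run x l).1.head = 0 := by
      rw [Sys.run_limit_eq _ _ hl]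
      exact ⟨rfl, rfl⟩
    refine ⟨fun k n => ?_, ?_, ?_, fun n => ?_⟩
    · show (uSys P dec).cell ((uSys P dec).run u l) (.tape k, n) =
        (hatSys P).cell ((hatSys P).run x l) (some (k, n))
      rw [Bool.eq_iff_iff, Sys.cell_limit _ _ hl, Sys.cell_limit _ _ hl]
      constructor <;> intro H s hs <;> obtain ⟨r, h1, h2, h3⟩ := H s hs
      · exact ⟨r, h1, h2, ((ih r h1).1 k n).symm.trans h3⟩
      · exact ⟨r, h1, h2, ((ih r h1).1 k n).trans h3⟩
    · show (uSys P dec).cell ((uSys P dec).run u l) (.halted, 0) =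
        (hatSys P).cell ((hatSys P).run x l) none
      rw [Bool.eq_iff_iff, Sys.cell_limit _ _ hl, Sys.cell_limit _ _ hl]
      constructor <;> intro H s hs <;> obtain ⟨r, h1, h2, h3⟩ := H s hs
      · exact ⟨r, h1, h2, ((ih r h1).2.1).symm.trans h3⟩
      · exact ⟨r, h1, h2, ((ih r h1).2.1).trans h3⟩
    · rw [effSt, u_ov P dec u 0 l hl.bot_lt, isL_limit P dec u hl, e.1]
      simp
    · rw [effHd, isL_limit P dec u hl, e.2]
      simp

theorem RU_ini (y : ℕ → Bool) :
    RU P (fun n => uIni P (decide (n = 0)) (y n)) (P.init y, false) := by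
  refine ⟨fun k n => rfl, rfl, ?_, fun n => by simp [effHd, isL, uIni, Prog.init]⟩
  have e5 : ∃ q, uIni P (decide (0 = 0)) (y 0) (.st q) = true := ⟨P.start, by simp [uIni]⟩
  simp only [effSt, isL, dif_pos e5]
  simp [uIni, Prog.init]

theorem RU_ovr {u : ℕ → TU Q → Bool} {x : Config Q × Bool} (h : RU P u x) :
    RU P ((uSys P dec).ovr u) ((hatSys P).ovr x) := by
  obtain ⟨h1, h2, h3, h4⟩ := h
  refine ⟨fun k n => ?_, ?_, ?_, fun n => ?_⟩
  · rw [show ((hatSys P).ovr x).1.tape k n = x.1.tape k n from rfl, ← h1]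
    simp only [mSys, uProg]
    split_ifs with h
    · simp [h]
    · rfl
  · rw [show ((hatSys P).ovr x).2 = x.2 from rfl, ← h2]
    simp [mSys, uProg]
  · simp [mSys, uProg, effSt, hatSys]
  · rw [show ((hatSys P).ovr x).1.head = x.1.head from rfl, ← h4]
    simp only [mSys, uProg, effHd, isL]
    by_cases h : n = 0 <;> simp [h]

theorem RU_res {u : ℕ → TU Q → Bool} {x : Config Q × Bool} (h : RU P u x) {b : Bool}
    (hb : (hatSys P).Res x b) : (uSys P dec).Res u b := by
  obtain ⟨t, h1, h2, h3⟩ := hb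
  refine ⟨t, (RU_run P dec h t).2.1.trans h1, fun s hs hc => h2 s hs ?_,
    ((RU_run P dec h t).1 2 0).trans h3⟩
  exact (RU_run P dec h s).2.1.symm.trans hc

end Pool.Agent.MP_bf5815_lc

end

section

/-! The first repetition of the time-stamped simulation is a strong loop. -/

namespace Pool.Agent.MP_bf5815_lc

open Ordinal Order
open scoped Classical

theorem Sys.last_change {X ι : Type} (S : Sys X ι) (a : X) (i : ι) (θ : O)
    (h : S.cell (S.run a θ) i = false) :
    (∀ t, t ≤ θ → S.cell (S.run a t) i = false) ∨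
      ∃ t, t < θ ∧ S.cell (S.run a t) i = true ∧
        ∀ r, t < r → r ≤ θ → S.cell (S.run a r) i = false := by
  let A : Set O := {s | s ≤ θ ∧ ∀ r, s ≤ r → r ≤ θ → S.cell (S.run a r) i = false}
  have hA : A.Nonempty := ⟨θ, le_rfl, fun r h1 h2 => by rwa [le_antisymm h2 h1]⟩
  obtain ⟨s, ⟨h1, h2⟩, h3⟩ := wellFounded_lt.has_min A hA
  rcases zero_or_succ_or_isSuccLimit s with rfl | ⟨t, rfl⟩ | hl
  · exact Or.inl fun t ht => h2 t zero_le ht
  · right
    refine ⟨t, (lt_succ t).trans_le h1, ?_, fun r h4 h5 => h2 r (succ_le_of_lt h4) h5⟩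
    by_contra h4
    refine h3 t ⟨(lt_succ t).le.trans h1, fun r h5 h6 => ?_⟩ (lt_succ t)
    rcases h5.eq_or_lt with rfl | h5
    · simpa using h4
    · exact h2 r (succ_le_of_lt h5) h6
  · obtain ⟨s', h4, h5⟩ := S.cell_limit_false a hl i (h2 s le_rfl h1)
    refine absurd h4 (h3 s' ⟨h4.le.trans h1, fun r h6 h7 => ?_⟩)
    rcases lt_or_ge r s with h | h
    · exact h5 r h6 h
    · exact h2 r h h7

variable {Q : Type} (P : Prog Q) {M : ℕ} (dec : Fin (M + 1) → TB × TU Q)

theorem exists_slot (hdec : Function.Surjective dec) (b : TB) (τ : TU Q) (z w : ℕ) :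
    ∃ n, dec (res M n) = (b, τ) ∧ pr (n / (M + 1)) = (z, w) := by
  obtain ⟨r, hr⟩ := hdec (b, τ)
  obtain ⟨j, hj⟩ := pr_surj z w
  refine ⟨r.1 + (M + 1) * j, ?_, ?_⟩
  · rw [← hr]
    congr 1
    apply Fin.ext
    simp only [res]
    rw [Nat.add_mul_mod_self_left, Nat.mod_eq_of_lt r.2]
  · rw [Nat.add_mul_div_left _ _ (Nat.succ_pos M), Nat.div_eq_of_lt r.2, zero_add, hj]

theorem step_H {b : TB} {τ : TU Q} {z w n : ℕ} (h1 : dec (res M n) = (b, τ))
    (h2 : pr (n / (M + 1)) = (z, w)) (u : ℕ → TU Q → Bool) :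
    (uSys P dec).step u n .H =
      if (uSys P dec).step u z b.tr = u z b.tr then u n .H else u w τ := by
  rw [u_tracked]
  simp only [mSys, uProg, uUpd, loc, h1, h2]
  congr

theorem H_const {b : TB} {τ : TU Q} {z w n : ℕ} (h1 : dec (res M n) = (b, τ))
    (h2 : pr (n / (M + 1)) = (z, w)) (u : ℕ → TU Q → Bool) (θ : O)
    (h : ∀ t, t ≤ θ → (uSys P dec).run u t z b.tr = false) :
    (uSys P dec).run u θ n .H = u n .H := by
  induction θ using Ordinal.limitRecOn with
  | zero => simp
  | add_one θ ih =>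
    have h3 := h _ le_rfl
    rw [Sys.run_succ] at h3 ⊢
    rw [step_H P dec h1 h2, h3, h θ (lt_add_one θ).le, if_pos rfl]
    exact ih (fun t ht => h t (ht.trans (lt_add_one θ).le))
  | limit l hl ih =>
    exact (uSys P dec).cell_limit_const u hl (.H, n) _ hl.bot_lt
      (fun r _ hr => ih r hr (fun t ht => h t (ht.trans hr.le)))

theorem H_snap {b : TB} {τ : TU Q} {z w n : ℕ} (h1 : dec (res M n) = (b, τ))
    (h2 : pr (n / (M + 1)) = (z, w)) (u : ℕ → TU Q → Bool) {t θ : O} (ht : t < θ)
    (h3 : (uSys P dec).run u t z b.tr = true)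
    (h : ∀ r, t < r → r ≤ θ → (uSys P dec).run u r z b.tr = false) :
    (uSys P dec).run u θ n .H = (uSys P dec).run u t w τ := by
  obtain ⟨d, rfl⟩ := exists_add_of_le (add_one_le_iff.2 ht)
  rw [Sys.run_add, H_const P dec h1 h2]
  · have h4 := h (t + 1) (lt_add_one t) le_self_add
    rw [Sys.run_succ] at h4 ⊢
    rw [step_H P dec h1 h2, h4, h3, if_neg (by simp)]
  · intro s hs
    rw [← Sys.run_add]
    exact h _ ((lt_add_one t).trans_le le_self_add) (by gcongr)

theorem e_or (u : ℕ → TU Q → Bool) (hu : u 0 .e0 = true) (t : O) :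
    (uSys P dec).run u t 0 .e0 = true ∨ (uSys P dec).run u t 0 .e1 = true := by
  rcases zero_or_succ_or_isSuccLimit t with rfl | ⟨t, rfl⟩ | hl
  · left; simpa using hu
  · rw [succ_eq_add_one, Sys.run_succ]
    show (uSys P dec).run u t 0 .e1 = true ∨ (!(uSys P dec).run u t 0 .e1) = true
    simp
  · exact Or.inl (u_e0_limit P dec u 0 hl)

theorem no_flash (hdec : Function.Surjective dec) (u : ℕ → TU Q → Bool) (hu : u 0 .e0 = true)
    (hH : ∀ n, u n .H = false) {s0 s1 : O} (hs : s0 < s1)
    (he : (uSys P dec).run u s0 = (uSys P dec).run u s1)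
    (hi : ∀ r1 r2, r1 < r2 → r2 < s1 → (uSys P dec).run u r1 ≠ (uSys P dec).run u r2)
    (b : TB) (z : ℕ) (h0 : (uSys P dec).run u s0 z b.tr = false) (t : O) (h1 : s0 ≤ t)
    (h2 : t ≤ s1) : (uSys P dec).run u t z b.tr = false := by
  by_contra h3
  rcases (uSys P dec).last_change u (b.tr, z) s1 (by rw [← he]; exact h0) with h4 | ⟨t1, h4, h5, h6⟩
  · exact h3 (h4 t h2)
  have h7 : s0 ≤ t1 := by
    by_contra h7
    exact h3 (h6 t ((not_le.1 h7).trans_le h1) h2)
  have key : ∀ w τ, ∃ n, dec (res M n) = (b, τ) ∧ pr (n / (M + 1)) = (z, w) ∧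
      (uSys P dec).run u s0 n .H = (uSys P dec).run u t1 w τ := by
    intro w τ
    obtain ⟨n, h8, h9⟩ := exists_slot dec hdec b τ z w
    exact ⟨n, h8, h9, by rw [he]; exact H_snap P dec h8 h9 u h4 h5 h6⟩
  rcases (uSys P dec).last_change u (b.tr, z) s0 h0 with h8 | ⟨t0, h8, h9, h10⟩
  · have : ∀ τ, (uSys P dec).run u t1 0 τ = false := by
      intro τ
      obtain ⟨n, a1, a2, a3⟩ := key 0 τ
      rw [← a3, H_const P dec a1 a2 u s0 h8, hH]
    rcases e_or P dec u hu t1 with h | h <;> simp [this] at h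
  · apply hi t0 t1 (h8.trans_le h7) h4
    funext w τ
    obtain ⟨n, a1, a2, a3⟩ := key w τ
    rw [← a3, H_snap P dec a1 a2 u h8 h9 h10]

theorem RU_unique {u : ℕ → TU Q → Bool} {x x' : Config Q × Bool} (h : RU P u x) (h' : RU P u x') :
    x = x' := by
  obtain ⟨⟨s, p, T⟩, hh⟩ := x
  obtain ⟨⟨s', p', T'⟩, hh'⟩ := x'
  obtain ⟨h1, h2, h3, h4⟩ := h
  obtain ⟨h5, h6, h7, h8⟩ := h'
  simp only at h1 h2 h3 h4 h5 h6 h7 h8
  have e1 : T = T' := by funext k n; rw [← h1, h5]
  have e2 : p = p' := by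
    have := (h4 p).symm.trans (h8 p)
    simpa using this
  rw [← h2, ← h6, ← h3, ← h7, e1, e2]

noncomputable abbrev u0 (y : ℕ → Bool) : ℕ → TU Q → Bool :=
  fun n => uIni P (decide (n = 0)) (y n)

theorem isL_imp_limit (y : ℕ → Bool) {s : O} (h : isL ((uSys P dec).run (u0 P y) s 0) = true) :
    IsSuccLimit s := by
  rcases zero_or_succ_or_isSuccLimit s with rfl | ⟨t, rfl⟩ | hl
  · simp [isL, uIni] at h
  · rw [succ_eq_add_one, Sys.run_succ, isL_step] at h
    simp at h
  · exact hl

/-- If the time-stamped simulation repeats by time `κ`, the frozen program is in its final loop. -/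
theorem good_loop (hdec : Function.Surjective dec) (y : ℕ → Bool) {δ : O}
    (h : ∃ s0 s1, s0 < s1 ∧ s1 ≤ δ ∧ (uSys P dec).run (u0 P y) s0 = (uSys P dec).run (u0 P y) s1) :
    ∃ ζ : O, ∀ κ ξ : O, IsPrincipal (· + ·) κ → δ ≤ κ → 0 < ξ →
      (hatSys P).run (P.init y, false) (κ * ξ) = (hatSys P).run (P.init y, false) ζ := by
  obtain ⟨s0, s1, h1, h2, h3⟩ := h
  let A : Set O := {s | ∃ r, r < s ∧ (uSys P dec).run (u0 P y) r = (uSys P dec).run (u0 P y) s}
  obtain ⟨s, ⟨r, h4, h5⟩, h6⟩ := wellFounded_lt.has_min A ⟨s1, s0, h1, h3⟩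
  have h7 : s ≤ δ := (not_lt.1 (h6 s1 ⟨s0, h1, h3⟩)).trans h2
  have nf := no_flash P dec hdec (u0 P y) rfl (fun n => rfl) h4 h5
    (fun r1 r2 a1 a2 a3 => h6 r2 ⟨r1, a1, a3⟩ a2)
  have h8 : (uSys P dec).run (u0 P y) r 0 .e1 = true := by
    by_contra h8
    have := nf .e1 0 (by simpa [TB.tr] using h8) (r + 1) (lt_add_one r).le (add_one_le_iff.2 h4)
    rw [Sys.run_succ] at this
    replace this : (!(uSys P dec).run (u0 P y) r 0 .e1) = false := this
    simp [h8] at this
  have h9 : (uSys P dec).run (u0 P y) r 0 .e0 = true := by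
    by_contra h9
    have := nf .e0 0 (by simpa [TB.tr] using h9) (r + 1) (lt_add_one r).le (add_one_le_iff.2 h4)
    rw [Sys.run_succ] at this
    replace this : (uSys P dec).run (u0 P y) r 0 .e1 = false := this
    simp [h8] at this
  have hl : IsSuccLimit r := isL_imp_limit P dec y (by simp [isL, h8, h9])
  obtain ⟨p, rfl⟩ := exists_add_of_le h4.le
  have hR := RU_run P dec (RU_ini P y)
  refine ⟨r, fun κ ξ a1 a2 a3 => Sys.strong_loop_principal (p := p) (by simpa using h4) hl ?_ ?_
    a1 (h7.trans a2) a3⟩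
  · exact RU_unique P (hR _) (h5 ▸ hR r)
  · intro i hi t ht
    have a4 : r + t ≤ r + p := by gcongr
    cases i with
    | none =>
      exact (hR _).2.1.symm.trans (nf .halted 0 ((hR _).2.1.trans hi) _ le_self_add a4)
    | some j =>
      exact ((hR _).1 _ _).symm.trans
        (nf (.tape j.1) j.2 (((hR _).1 _ _).trans hi) _ le_self_add a4)

end Pool.Agent.MP_bf5815_lc

end

section

/-! The recognizing machine: main simulation, restarted simulation, snapshot, and one test bit. -/

namespace Pool.Agent.MP_bf5815_lc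

open Ordinal Order
open scoped Classical

inductive GR | U | V | S | Y
  deriving Fintype

inductive XT | ev | seeded | cnt | mode | rej
  deriving Fintype

abbrev FT (Q : Type) := (GR × TU Q) ⊕ XT
abbrev FG := (GR × Fin 3) ⊕ Unit

variable {Q : Type} (P : Prog Q) {M : ℕ} (dec : Fin (M + 1) → TB × TU Q) (b0 : Bool)

def grp (g : GR) (c : FT Q → Bool) : TU Q → Bool := fun τ => c (.inl (g, τ))

def Loc.grp (g : GR) (l : Loc (FT Q) M) : Loc (TU Q) M :=
  ⟨l.r, MP_bf5815_lc.grp g l.c0, MP_bf5815_lc.grp g l.prev, l.p0, MP_bf5815_lc.grp g l.cur, l.u0,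
    MP_bf5815_lc.grp g l.next, MP_bf5815_lc.grp g l.cz, l.z0, MP_bf5815_lc.grp g l.cw⟩

def rst (c0 : FT Q → Bool) : Bool := isL (grp .U c0) && c0 (.inr .ev)

def src (r h : Bool) : GR := if (r || h) = true then .Y else .V

noncomputable def fUpd (a : FG → Bool) (l : Loc (FT Q) M) : FT Q → Bool
  | .inl (.U, τ) => uUpd P dec (fun k => a (.inl (.U, k))) (l.grp .U) τ
  | .inl (.V, τ) => uUpd P dec (fun k => a (.inl (src (rst l.c0) (!a (.inr ())), k)))
      (l.grp (src (rst l.c0) (!a (.inr ())))) τ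
  | .inl (.S, τ) => if rst l.c0 = true then l.cur (.inl (.U, τ)) else l.cur (.inl (.S, τ))
  | .inl (.Y, τ) => l.cur (.inl (.Y, τ))
  | .inr .ev => rst l.c0 || !a (.inr ()) || !l.c0 (.inr .seeded)
  | .inr .seeded => l.c0 (.inr .seeded) || rst l.c0
  | .inr .cnt => !rst l.c0 && (!a (.inr ()) || l.c0 (.inr .cnt))
  | .inr .mode => l.c0 (.inr .mode)
  | .inr .rej => l.c0 (.inr .rej)

noncomputable def fProg : MProg (FT Q) FG M where
  ini z b := Sum.elim (fun i => uIni P z b i.2) (fun _ => false)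
  contrib c := Sum.elim (fun i => c (.inl (i.1, .hd)) && c (.inl (i.1, .tape i.2)))
    (fun _ => decide (∃ τ, c (.inl (.V, τ)) ≠ c (.inl (.S, τ))))
  upd := fUpd P dec
  stop c := c (.inr .rej) = true ∨ (c (.inr .mode) = true ∧ c (.inl (.U, .halted)) = true)
  out c := !c (.inr .rej) && c (.inl (.U, .tape 2))
  jump c := if c (.inr .cnt) = b0 then
      Function.update (Function.update c (.inl (.U, .ov)) true) (.inr .mode) true
    else Function.update c (.inr .rej) true

noncomputable abbrev fSys := mSys (fProg P dec b0)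

def pj (g : GR) (m : ℕ → FT Q → Bool) : ℕ → TU Q → Bool := fun n => grp g (m n)

noncomputable def hit (m : ℕ → FT Q → Bool) : Bool := decide (pj .V m = pj .S m)

theorem acc_diff (m : ℕ → FT Q → Bool) : (!(fProg P dec b0).acc m (.inr ())) = hit m := by
  rw [Bool.eq_iff_iff]
  simp only [MProg.acc, fProg, hit, Sum.elim_inr, decide_eq_true_eq, Bool.not_eq_true',
    decide_eq_false_iff_not, not_exists, ne_eq, not_not]
  constructor
  · intro h
    funext n τ
    exact h n τ
  · intro h n τ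
    exact congrFun (congrFun h n) τ

theorem step_U (m : ℕ → FT Q → Bool) :
    pj .U ((fSys P dec b0).step m) = (uSys P dec).step (pj .U m) := rfl

theorem step_V (m : ℕ → FT Q → Bool) :
    pj .V ((fSys P dec b0).step m) = (uSys P dec).step (pj (src (rst (m 0)) (hit m)) m) := by
  rw [← acc_diff P dec b0]
  rfl

theorem step_S (m : ℕ → FT Q → Bool) :
    pj .S ((fSys P dec b0).step m) = if rst (m 0) = true then pj .U m else pj .S m := by
  funext n τ
  show (if rst (m 0) = true then m n (.inl (.U, τ)) else m n (.inl (.S, τ))) = _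
  split_ifs <;> rfl

theorem step_Y (m : ℕ → FT Q → Bool) : pj .Y ((fSys P dec b0).step m) = pj .Y m := rfl

theorem step_ev (m : ℕ → FT Q → Bool) : (fSys P dec b0).step m 0 (.inr .ev) =
    (rst (m 0) || hit m || !m 0 (.inr .seeded)) := by
  rw [← acc_diff P dec b0]
  rfl

theorem step_seeded (m : ℕ → FT Q → Bool) : (fSys P dec b0).step m 0 (.inr .seeded) =
    (m 0 (.inr .seeded) || rst (m 0)) := rfl

theorem step_cnt (m : ℕ → FT Q → Bool) : (fSys P dec b0).step m 0 (.inr .cnt) =
    (!rst (m 0) && (hit m || m 0 (.inr .cnt))) := by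
  rw [← acc_diff P dec b0]
  rfl

theorem pj_limit (g : GR) (m : ℕ → FT Q → Bool) (u : ℕ → TU Q → Bool) {l : O}
    (hl : IsSuccLimit l) (h : ∀ r, 0 < r → r < l →
      pj g ((fSys P dec b0).run m r) = (uSys P dec).run u r) :
    pj g ((fSys P dec b0).run m l) = (uSys P dec).run u l := by
  funext n τ
  show (fSys P dec b0).cell ((fSys P dec b0).run m l) (.inl (g, τ), n) =
    (uSys P dec).cell ((uSys P dec).run u l) (τ, n)
  have h1 : (1 : O) < l := by simpa using hl.add_one_lt hl.bot_lt
  rw [Bool.eq_iff_iff, Sys.cell_limit _ _ hl, Sys.cell_limit _ _ hl]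
  constructor <;> intro H s hs <;> obtain ⟨r, a1, a2, a3⟩ := H (max s 1) (max_lt hs h1)
  · have := h r (lt_of_lt_of_le zero_lt_one ((le_max_right _ _).trans a2)) a1
    exact ⟨r, a1, (le_max_left _ _).trans a2, (congrFun (congrFun this n) τ).symm.trans a3⟩
  · have := h r (lt_of_lt_of_le zero_lt_one ((le_max_right _ _).trans a2)) a1
    exact ⟨r, a1, (le_max_left _ _).trans a2, (congrFun (congrFun this n) τ).trans a3⟩

theorem pj_limit_const (g : GR) (m : ℕ → FT Q → Bool) (u : ℕ → TU Q → Bool) {l : O}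
    (hl : IsSuccLimit l) (h : ∀ r, 0 < r → r < l → pj g ((fSys P dec b0).run m r) = u) :
    pj g ((fSys P dec b0).run m l) = u := by
  funext n τ
  have h1 : (1 : O) < l := by simpa using hl.add_one_lt hl.bot_lt
  exact (fSys P dec b0).cell_limit_const m hl (.inl (g, τ), n) _ h1
    (fun r a1 a2 => congrFun (congrFun (h r (lt_of_lt_of_le zero_lt_one a1) a2) n) τ)

theorem run_U (m : ℕ → FT Q → Bool) (t : O) :
    pj .U ((fSys P dec b0).run m t) = (uSys P dec).run (pj .U m) t := by
  induction t using Ordinal.limitRecOn with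
  | zero => simp
  | add_one t ih => rw [Sys.run_succ, Sys.run_succ, step_U, ih]
  | limit l hl ih => exact pj_limit P dec b0 _ _ _ hl (fun r _ hr => ih r hr)

theorem run_Y (m : ℕ → FT Q → Bool) (t : O) : pj .Y ((fSys P dec b0).run m t) = pj .Y m := by
  induction t using Ordinal.limitRecOn with
  | zero => simp
  | add_one t ih => rw [Sys.run_succ, step_Y, ih]
  | limit l hl ih => exact pj_limit_const P dec b0 _ _ _ hl (fun r _ hr => ih r hr)

theorem run_mode (m : ℕ → FT Q → Bool) (t : O) :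
    (fSys P dec b0).run m t 0 (.inr .mode) = m 0 (.inr .mode) := by
  induction t using Ordinal.limitRecOn with
  | zero => simp
  | add_one t ih => rw [Sys.run_succ, ← ih]; rfl
  | limit l hl ih =>
    exact (fSys P dec b0).cell_limit_const m hl (.inr .mode, 0) _ hl.bot_lt (fun r _ hr => ih r hr)

theorem run_rej (m : ℕ → FT Q → Bool) (t : O) :
    (fSys P dec b0).run m t 0 (.inr .rej) = m 0 (.inr .rej) := by
  induction t using Ordinal.limitRecOn with
  | zero => simp
  | add_one t ih => rw [Sys.run_succ, ← ih]; rfl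
  | limit l hl ih =>
    exact (fSys P dec b0).cell_limit_const m hl (.inr .rej, 0) _ hl.bot_lt (fun r _ hr => ih r hr)

theorem rst_step (m : ℕ → FT Q → Bool) : rst ((fSys P dec b0).step m 0) = false := by
  have := isL_step P dec (pj .U m)
  rw [← step_U P dec b0] at this
  rw [rst]
  exact (congrArg (· && _) this).trans (Bool.false_and _)

/-- The state of the auxiliary parts `r` steps after an event. -/
def Seg (u : ℕ → TU Q → Bool) (δ : O) (c : Bool) (m : ℕ → FT Q → Bool) (r : O) : Prop :=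
  pj .V m = (uSys P dec).run u r ∧ pj .S m = (uSys P dec).run u δ ∧ m 0 (.inr .cnt) = c ∧
    m 0 (.inr .seeded) = true ∧ m 0 (.inr .ev) = decide (r = 1)

theorem seg_run (u : ℕ → TU Q → Bool) (δ : O) (c : Bool) (m : ℕ → FT Q → Bool)
    (hi : ∀ r, r < δ → (uSys P dec).run u r ≠ (uSys P dec).run u δ)
    (h : Seg P dec u δ c ((fSys P dec b0).step m) 1) (r : O) (h0 : 0 < r) (hr : r ≤ δ) :
    Seg P dec u δ c ((fSys P dec b0).run m r) r := by
  induction r using Ordinal.limitRecOn with
  | zero => exact absurd h0 (lt_irrefl _)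
  | add_one r ih =>
    rcases eq_or_ne r 0 with rfl | h1
    · rw [zero_add, Sys.run_one]; exact h
    have h2 : r < δ := (lt_add_one r).trans_le hr
    obtain ⟨a1, a2, a3, a4, a5⟩ := ih (pos_iff_ne_zero.2 h1) h2.le
    have e1 : rst ((fSys P dec b0).run m r 0) = false := by
      rcases eq_or_ne r 1 with rfl | h3
      · rw [Sys.run_one, rst_step]
      · rw [rst, a5, decide_eq_false h3, Bool.and_false]
    have e2 : hit ((fSys P dec b0).run m r) = false := by
      rw [hit, a1, a2]
      exact decide_eq_false (hi r h2)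
    have e3 : r + 1 ≠ 1 := by
      have : (1 : O) < r + 1 := lt_add_one_iff.2 (one_le_iff_ne_zero.2 h1)
      exact this.ne'
    rw [Sys.run_succ]
    refine ⟨?_, ?_, ?_, ?_, ?_⟩
    · rw [step_V, e1, e2, Sys.run_succ, ← a1]; rfl
    · rw [step_S, e1, ← a2]; rfl
    · rw [step_cnt, e1, e2, a3]; simp
    · rw [step_seeded, a4]; simp
    · rw [step_ev, e1, e2, a4, decide_eq_false e3]; simp
  | limit l hl ih =>
    have ih' := fun r (a : 0 < r) (b : r < l) => ih r b a (b.le.trans hr)
    have h1 : (1 : O) < l := by simpa using hl.add_one_lt hl.bot_lt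
    refine ⟨pj_limit P dec b0 _ _ _ hl (fun r a b => (ih' r a b).1),
      pj_limit_const P dec b0 _ _ _ hl (fun r a b => (ih' r a b).2.1),
      (fSys P dec b0).cell_limit_const m hl (.inr .cnt, 0) _ h1
        (fun r a b => (ih' r (lt_of_lt_of_le zero_lt_one a) b).2.2.1),
      (fSys P dec b0).cell_limit_const m hl (.inr .seeded, 0) _ h1
        (fun r a b => (ih' r (lt_of_lt_of_le zero_lt_one a) b).2.2.2.1), ?_⟩
    rw [decide_eq_false h1.ne']
    refine (fSys P dec b0).cell_limit_const m hl (.inr .ev, 0) _ (hl.add_one_lt h1)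
      (fun r a b => ?_)
    have a' : 1 < r := (lt_add_one 1).trans_le a
    exact (ih' r (zero_lt_one.trans a') b).2.2.2.2.trans (decide_eq_false a'.ne')

theorem seg_mul (m : ℕ → FT Q → Bool) (hUY : pj .Y m = pj .U m) (δ : O) (hδ : 1 < δ)
    (hi : ∀ r, r < δ → (uSys P dec).run (pj .U m) r ≠ (uSys P dec).run (pj .U m) δ)
    (hr : rst ((fSys P dec b0).run m δ 0) = true) (j : ℕ) :
    Seg P dec (pj .U m) δ (decide (0 < j))
      ((fSys P dec b0).step ((fSys P dec b0).run m (δ * (j + 1 : ℕ)))) 1 := by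
  induction j with
  | zero =>
    simp only [zero_add, Nat.cast_one, mul_one]
    refine ⟨?_, ?_, ?_, ?_, ?_⟩
    · rw [step_V, hr, Sys.run_one, ← hUY, ← run_Y P dec b0 m δ]; rfl
    · rw [step_S, hr, ← run_U P dec b0]; rfl
    · rw [step_cnt, hr]; simp
    · rw [step_seeded, hr]; simp
    · rw [step_ev, hr]; simp
  | succ j ih =>
    obtain ⟨a1, a2, a3, a4, a5⟩ := seg_run P dec b0 _ δ _ _ hi ih δ (zero_lt_one.trans hδ) le_rfl
    rw [← Sys.run_add, ← mul_add_one, ← Nat.cast_add_one] at a1 a2 a3 a4 a5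
    have e1 : rst ((fSys P dec b0).run m (δ * (j + 1 + 1 : ℕ)) 0) = false := by
      rw [rst, a5, decide_eq_false hδ.ne', Bool.and_false]
    have e2 : hit ((fSys P dec b0).run m (δ * (j + 1 + 1 : ℕ))) = true := by
      rw [hit, a1, a2]
      exact decide_eq_true rfl
    refine ⟨?_, ?_, ?_, ?_, ?_⟩
    · rw [step_V, e1, e2, Sys.run_one, ← hUY, ← run_Y P dec b0 m (δ * (j + 1 + 1 : ℕ))]; rfl
    · rw [step_S, e1, ← a2]; rfl
    · rw [step_cnt, e1, e2]; simp
    · rw [step_seeded, a4]; simp
    · rw [step_ev, e2]; simp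

noncomputable abbrev m0 (y : ℕ → Bool) : ℕ → FT Q → Bool :=
  fun n => (fProg P dec b0).ini (decide (n = 0)) (y n)

theorem unseeded (y : ℕ → Bool) (n : ℕ) :
    (fSys P dec b0).run (m0 P dec b0 y) n 0 (.inr .seeded) = false := by
  induction n with
  | zero => simp [m0, fProg]
  | succ n ih =>
    rw [Nat.cast_succ, Sys.run_succ, step_seeded, ih]
    cases n with
    | zero => simp [m0, rst, isL, grp, fProg, uIni]
    | succ n => rw [Nat.cast_succ, Sys.run_succ, rst_step]; rfl

theorem reset_principal (y : ℕ → Bool) {δ : O}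
    (hi : ∀ r s, r < s → s ≤ δ → (uSys P dec).run (u0 P y) r ≠ (uSys P dec).run (u0 P y) s)
    (κ : O) (hκ : IsPrincipal (· + ·) κ) (h1 : ω ≤ κ) (h2 : κ ≤ δ) :
    rst ((fSys P dec b0).run (m0 P dec b0 y) κ 0) = true := by
  induction κ using WellFoundedLT.induction with
  | ind κ ih =>
  have hl : IsSuccLimit κ := isSuccLimit_of_isPrincipal_add (one_lt_omega0.trans_le h1) hκ
  have e1 : isL (grp .U ((fSys P dec b0).run (m0 P dec b0 y) κ 0)) = true := by
    have := isL_limit P dec (pj .U (m0 P dec b0 y)) hl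
    rwa [← run_U P dec b0] at this
  rw [rst, e1, Bool.true_and]
  apply ((fSys P dec b0).cell_limit _ hl (.inr .ev, 0)).2
  intro s hs
  rcases lt_or_ge s ω with h3 | h3
  · obtain ⟨n, rfl⟩ := lt_omega0.1 h3
    refine ⟨n + 1, hl.add_one_lt hs, (lt_add_one _).le, ?_⟩
    show (fSys P dec b0).run (m0 P dec b0 y) (n + 1) 0 (.inr .ev) = true
    rw [Sys.run_succ, step_ev, unseeded]
    simp
  · have hs0 : s ≠ 0 := (omega0_pos.trans_le h3).ne'
    have a1 : ω ^ log ω s ≤ s := opow_log_le_self ω hs0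
    have a2 : s < ω ^ succ (log ω s) := lt_opow_succ_log_self one_lt_omega0 s
    have a3 : ω ≤ ω ^ log ω s := by
      have : 1 ≤ log ω s := (opow_le_iff_le_log one_lt_omega0 hs0).1 (by simpa using h3)
      simpa using opow_le_opow_right omega0_pos this
    have a4 := ih _ (a1.trans_lt hs) (isPrincipal_add_omega0_opow _) a3 (a1.trans (hs.le.trans h2))
    rw [opow_succ] at a2
    obtain ⟨c, a5, a6⟩ := (lt_mul_iff_of_isSuccLimit isSuccLimit_omega0).1 a2
    obtain ⟨j, rfl⟩ := lt_omega0.1 a5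
    have a7 := seg_mul P dec b0 (m0 P dec b0 y) rfl _ (one_lt_omega0.trans_le a3)
      (fun r hr => hi r _ hr (a1.trans (hs.le.trans h2))) a4 j
    refine ⟨ω ^ log ω s * (j + 1 : ℕ) + 1, hl.add_one_lt (hκ.mul_natCast_lt (a1.trans_lt hs) _),
      a6.le.trans (le_trans (by gcongr; omega) (lt_add_one _).le), ?_⟩
    rw [Sys.run_succ]
    exact a7.2.2.2.2.trans (decide_eq_true rfl)

theorem cnt_bad (y : ℕ → Bool) {δ : O} (hδ : IsPrincipal (· + ·) δ) (h1 : ω ≤ δ)
    (hi : ∀ r s, r < s → s ≤ δ → (uSys P dec).run (u0 P y) r ≠ (uSys P dec).run (u0 P y) s)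
    (j : ℕ) {r : O} (h0 : 0 < r) (hr : r ≤ δ) :
    (fSys P dec b0).run (m0 P dec b0 y) (δ * (j + 1 : ℕ) + r) 0 (.inr .cnt) = decide (0 < j) := by
  have a4 := reset_principal P dec b0 y hi δ hδ h1 le_rfl
  have a7 := seg_mul P dec b0 (m0 P dec b0 y) rfl _ (one_lt_omega0.trans_le h1)
    (fun r hr => hi r _ hr le_rfl) a4 j
  rw [Sys.run_add]
  exact (seg_run P dec b0 _ δ _ _ (fun r hr => hi r _ hr le_rfl) a7 r h0 hr).2.2.1

theorem f_alive (y : ℕ → Bool) (t : O) : (fSys P dec b0).Alive (m0 P dec b0 y) t := by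
  intro s _ h
  rcases h with h | ⟨h, -⟩
  · rw [run_rej] at h
    simp [m0, fProg] at h
  · rw [run_mode] at h
    simp [m0, fProg] at h

theorem f_reject (y : ℕ → Bool) (t : O)
    (h : (fSys P dec b0).run (m0 P dec b0 y) t 0 (.inr .cnt) ≠ b0) :
    (fSys P dec b0).PRes (m0 P dec b0 y) t false := by
  refine ⟨f_alive P dec b0 y t, ?_⟩
  generalize (fSys P dec b0).run (m0 P dec b0 y) t = m at h
  have h1 : (fSys P dec b0).ovr m 0 (.inr .rej) = true := by simp [mSys, fProg, h]
  have := (fSys P dec b0).res_halt (a := (fSys P dec b0).ovr m) (Or.inl h1)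
  have e : (fSys P dec b0).out ((fSys P dec b0).ovr m) = false := by
    show (!(fSys P dec b0).ovr m 0 (.inr .rej) && _) = false
    rw [h1]; rfl
  rwa [e] at this

theorem f_pass (y : ℕ → Bool) (t : O) {b : Bool}
    (h : (fSys P dec b0).run (m0 P dec b0 y) t 0 (.inr .cnt) = b0)
    (hb : (hatSys P).Res ((hatSys P).ovr ((hatSys P).run (P.init y, false) t)) b) :
    (fSys P dec b0).PRes (m0 P dec b0 y) t b := by
  refine ⟨f_alive P dec b0 y t, ?_⟩
  have h1 := RU_res P dec (RU_ovr P dec (RU_run P dec (RU_ini P y) t)) hb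
  have h2 : (uSys P dec).run (u0 P y) t = pj .U ((fSys P dec b0).run (m0 P dec b0 y) t) :=
    (run_U P dec b0 (m0 P dec b0 y) t).symm
  have h3 : (fSys P dec b0).run (m0 P dec b0 y) t 0 (.inr .rej) = false := by
    rw [run_rej]; simp [m0, fProg]
  rw [h2] at h1
  generalize (fSys P dec b0).run (m0 P dec b0 y) t = m at h h1 h3
  have e1 : (uSys P dec).ovr (pj .U m) = pj .U ((fSys P dec b0).ovr m) := by
    funext n τ
    simp only [mSys, fProg, uProg, pj, grp, h, if_true]
    by_cases hn : n = 0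
    · by_cases hτ : τ = .ov
      · simp [hn, hτ]
      · simp [hn, hτ, grp]
    · simp [hn, grp]
  have e2 : (fSys P dec b0).ovr m 0 (.inr .rej) = false := by simp [mSys, fProg, h, h3]
  have e3 : (fSys P dec b0).ovr m 0 (.inr .mode) = true := by simp [mSys, fProg, h]
  rw [e1] at h1
  generalize (fSys P dec b0).ovr m = m' at h1 e2 e3
  obtain ⟨s, a1, a2, a3⟩ := h1
  rw [← run_U P dec b0] at a1 a3
  refine ⟨s, Or.inr ⟨by rw [run_mode, e3], a1⟩, ?_, ?_⟩
  · rintro r hr (h | ⟨-, h⟩)
    · rw [run_rej, e2] at h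
      simp at h
    · apply a2 r hr
      rw [← run_U P dec b0]
      exact h
  · show (!(fSys P dec b0).run m' s 0 (.inr .rej) && _) = b
    rw [run_rej, e2, ← a3]
    rfl

end Pool.Agent.MP_bf5815_lc

end

section

namespace Pool.Agent.MP_bf5815_lc

open Ordinal Order
open scoped Classical

theorem fSys_run_indep {Q : Type} (P : Prog Q) {M : ℕ} (dec : Fin (M + 1) → TB × TU Q)
    (b0 b1 : Bool) (y : ℕ → Bool) (t : O) :
    (fSys P dec b0).run (m0 P dec b0 y) t = (fSys P dec b1).run (m0 P dec b1 y) t := rfl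

theorem main_thm (α : O) (x : ℕ → Bool) (h : Recognizable α x) :
    ∃ β : O, β < ω₁ ∧ Recognizable β x := by
  rcases lt_or_ge α ω₁ with hα | hα
  · exact ⟨α, hα, h⟩
  obtain ⟨Q, hQ, P, hP⟩ := h
  obtain ⟨M, ⟨e⟩⟩ := Finite.exists_equiv_fin (TB × TU Q)
  let dec : Fin (M + 1) → TB × TU Q := fun r =>
    if h : r.1 < M then e.symm ⟨r.1, h⟩ else (.e0, .e0)
  have hdec : Function.Surjective dec := fun a => ⟨(e a).castSucc, by simp [dec]⟩
  obtain ⟨ζ, p, a1, a2, a3, a4, a5⟩ := (fSys P dec false).exists_countable_loop (m0 P dec false x)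
  have hω : IsSuccLimit (ω₁ : O) := Cardinal.isSuccLimit_omega 1
  have hω0 : (ω₁ : O) ≠ 0 := hω.ne_bot
  set β0 := α % ω₁ with hβ0
  have b1 : β0 < ω₁ := mod_lt _ hω0
  have b2 : 0 < α / ω₁ := by
    rw [pos_iff_ne_zero]
    intro h
    have := div_add_mod α ω₁
    rw [h, mul_zero, zero_add] at this
    exact absurd (this ▸ b1) (not_lt.2 hα)
  set γ := max (ζ + p) β0 with hγ
  set δ := ω ^ (γ + 1) with hδ
  have d1 : IsPrincipal (· + ·) δ := isPrincipal_add_omega0_opow _
  have d2 : γ < δ := (right_le_opow γ one_lt_omega0).trans_lt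
    ((opow_lt_opow_iff_right one_lt_omega0).2 (lt_add_one γ))
  have d3 : ω ≤ δ := by
    have := opow_le_opow_right omega0_pos (le_add_self : 1 ≤ γ + 1)
    rwa [opow_one] at this
  have d4 : δ < ω₁ := isPrincipal_opow_omega 1 omega0_lt_omega_one (hω.add_one_lt (max_lt a3 b1))
  obtain ⟨r0, r1, r2, r3⟩ : ∃ r0 : O, 0 < r0 ∧ r0 ≤ δ ∧ ∀ j : ℕ, ∃ k : O, 0 < k ∧
      δ * (j + 1 : ℕ) + r0 = δ * k + β0 := by
    rcases eq_or_ne β0 0 with h | h
    · refine ⟨δ, omega0_pos.trans_le d3, le_rfl, fun j => ⟨(j + 1 : ℕ) + 1, by simp, ?_⟩⟩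
      rw [h, add_zero, mul_add_one]
    · exact ⟨β0, pos_iff_ne_zero.2 h, ((le_max_right _ _).trans_lt d2).le,
        fun j => ⟨(j + 1 : ℕ), by simp, rfl⟩⟩
  set b0 := (fSys P dec false).run (m0 P dec false x) (ζ + β0) 0 (.inr .cnt) with hb0
  have c1 : ∀ j : ℕ, (fSys P dec b0).run (m0 P dec b0 x) (δ * (j + 1 : ℕ) + r0) 0 (.inr .cnt) =
      b0 := by
    intro j
    obtain ⟨k, h1, h2⟩ := r3 j
    rw [fSys_run_indep P dec b0 false, h2, Sys.run_add,
      Sys.strong_loop_principal a1 a2 a4 a5 d1 ((le_max_left _ _).trans d2.le) h1, ← Sys.run_add]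
  obtain ⟨j, hj⟩ : ∃ j : ℕ, decide (0 < j) ≠ b0 := by
    cases b0
    · exact ⟨1, by simp⟩
    · exact ⟨0, by simp⟩
  refine ⟨_, ?_, recog_of_big (fProg P dec b0) (δ * (j + 1 : ℕ) + r0) x fun y => ?_⟩
  · have hA := isPrincipal_add_omega 1
    have hM := isPrincipal_mul_omega 1
    have hn : ∀ n : ℕ, (n : O) < ω₁ := fun n => (natCast_lt_omega0 n).trans omega0_lt_omega_one
    exact hA omega0_lt_omega_one (hM (hM omega0_lt_omega_one (by exact_mod_cast hn 3))
      (hA (hM d4 (hn _)) (r2.trans_lt d4)))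
  · by_cases hc : (fSys P dec b0).run (m0 P dec b0 y) (δ * (j + 1 : ℕ) + r0) 0 (.inr .cnt) = b0
    · have hg : ∃ s0 s1, s0 < s1 ∧ s1 ≤ δ ∧
          (uSys P dec).run (u0 P y) s0 = (uSys P dec).run (u0 P y) s1 := by
        by_contra hg
        apply hj
        rw [← cnt_bad P dec b0 y d1 d3 (fun r s h1 h2 h3 => hg ⟨r, s, h1, h2, h3⟩) j r1 r2, hc]
      obtain ⟨ζ', hζ'⟩ := good_loop P dec hdec y hg
      obtain ⟨t, h1, h2⟩ := hP y
      refine ⟨_, f_pass P dec b0 y _ hc ?_, h2⟩
      obtain ⟨k, h3, h4⟩ := r3 j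
      have h5 := hat_source P h1
      rw [← div_add_mod α ω₁, Sys.run_add, hζ' _ _ (isPrincipal_add_omega 1) d4.le b2,
        div_add_mod] at h5
      rw [h4, Sys.run_add, hζ' _ _ d1 le_rfl h3]
      exact h5
    · refine ⟨false, f_reject P dec b0 y _ hc, ?_⟩
      simp only [Bool.false_eq_true, false_iff]
      rintro rfl
      exact hc (c1 j)

end Pool.Agent.MP_bf5815_lc

end
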