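import Mathlib
import Pool.Agent.MP_bf5815_lc.Defs

section

/-! General infinite time systems, their runs, and simulation lemmas. -/

namespace Pool.Agent.MP_bf5815_lc

open Ordinal Order
open scoped Classical

abbrev O := Ordinal.{0}

structure Sys (X ι : Type) where
  cell : X → ι → Bool
  step : X → X
  lim : (ι → Bool) → X
  cell_lim : ∀ v, cell (lim v) = v
  halt : X → Prop
  out : X → Bool
  ovr : X → X

namespace Sys

variable {X ι : Type} (S : Sys X ι)

noncomputable def run (a : X) (t : O) : X :=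
  Ordinal.limitRecOn (motive := fun _ => X) t a (fun _ x => S.step x)
    (fun l _ f => S.lim (fun i =>
      decide (∀ s, s < l → ∃ r, ∃ h : r < l, s ≤ r ∧ S.cell (f r h) i = true)))

@[simp] theorem run_zero (a : X) : S.run a 0 = a := by simp [run]

theorem run_succ (a : X) (t : O) : S.run a (t + 1) = S.step (S.run a t) := by
  simp [run]

theorem run_one (a : X) : S.run a 1 = S.step a := by
  have := S.run_succ a 0
  simpa using this

theorem run_limit (a : X) {l : O} (hl : IsSuccLimit l) :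
    S.run a l = S.lim (fun i =>
      decide (∀ s, s < l → ∃ r, r < l ∧ s ≤ r ∧ S.cell (S.run a r) i = true)) := by
  unfold run
  rw [Ordinal.limitRecOn_limit _ _ _ _ hl]
  simp only [exists_prop]

theorem cell_limit (a : X) {l : O} (hl : IsSuccLimit l) (i : ι) :
    S.cell (S.run a l) i = true ↔
      ∀ s, s < l → ∃ r, r < l ∧ s ≤ r ∧ S.cell (S.run a r) i = true := by
  rw [S.run_limit a hl, S.cell_lim]
  simp

theorem run_limit_eq (a : X) {l : O} (hl : IsSuccLimit l) :
    S.run a l = S.lim (S.cell (S.run a l)) := by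
  rw [S.run_limit a hl, S.cell_lim]

/-- eventually constant cells -/
theorem cell_limit_const (a : X) {l : O} (hl : IsSuccLimit l) (i : ι) (b : Bool) {s0 : O}
    (hs : s0 < l) (h : ∀ r, s0 ≤ r → r < l → S.cell (S.run a r) i = b) :
    S.cell (S.run a l) i = b := by
  cases b with
  | true =>
    rw [S.cell_limit a hl]
    intro s hs'
    exact ⟨max s s0, max_lt hs' hs, le_max_left _ _, h _ (le_max_right _ _) (max_lt hs' hs)⟩
  | false =>
    rw [← Bool.not_eq_true, S.cell_limit a hl]
    intro H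
    obtain ⟨r, hr, hsr, hc⟩ := H s0 hs
    rw [h r hsr hr] at hc
    exact absurd hc (by simp)

theorem cell_limit_false (a : X) {l : O} (hl : IsSuccLimit l) (i : ι)
    (h : S.cell (S.run a l) i = false) :
    ∃ s, s < l ∧ ∀ r, s ≤ r → r < l → S.cell (S.run a r) i = false := by
  rw [← Bool.not_eq_true, S.cell_limit a hl] at h
  push Not at h
  obtain ⟨s, hs, H⟩ := h
  exact ⟨s, hs, fun r h1 h2 => by simpa using H r h2 h1⟩

theorem run_add (a : X) (s t : O) : S.run a (s + t) = S.run (S.run a s) t := by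
  induction t using Ordinal.limitRecOn with
  | zero => simp
  | add_one t ih => rw [← add_assoc, run_succ, run_succ, ih]
  | limit l hl ih =>
    rw [S.run_limit a (isSuccLimit_add s hl), S.run_limit _ hl]
    congr 1
    funext i
    apply decide_eq_decide.2
    constructor
    · intro H u hu
      obtain ⟨r, hr, hsr, hc⟩ := H (s + u) (by gcongr)
      have hsr' : s ≤ r := le_trans le_self_add hsr
      obtain ⟨r', rfl⟩ := exists_add_of_le hsr'
      have h1 : r' < l := by simpa using hr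
      exact ⟨r', h1, by simpa using hsr, by rw [← ih r' h1]; exact hc⟩
    · intro H u hu
      obtain ⟨d, hd, hud⟩ := (lt_add_iff_of_isSuccLimit hl).1 hu
      obtain ⟨r, hr, hdr, hc⟩ := H d hd
      exact ⟨s + r, by gcongr, hud.le.trans (by gcongr), by rw [ih r hr]; exact hc⟩

theorem run_nat (a : X) (n : ℕ) : S.run a (n : O) = S.step^[n] a := by
  induction n with
  | zero => simp
  | succ n ih => rw [Nat.cast_succ, run_succ, ih, Function.iterate_succ_apply']

def Alive (a : X) (t : O) : Prop := ∀ s, s < t → ¬ S.halt (S.run a s)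

def Res (a : X) (b : Bool) : Prop :=
  ∃ t, S.halt (S.run a t) ∧ S.Alive a t ∧ S.out (S.run a t) = b

def PRes (a : X) (β : O) (b : Bool) : Prop :=
  S.Alive a β ∧ S.Res (S.ovr (S.run a β)) b

theorem alive_add {a : X} {s t : O} (h1 : S.Alive a s) (h2 : S.Alive (S.run a s) t) :
    S.Alive a (s + t) := by
  intro r hr
  rcases lt_or_ge r s with h | h
  · exact h1 r h
  · obtain ⟨r', rfl⟩ := exists_add_of_le h
    rw [run_add]
    exact h2 r' (by simpa using hr)

theorem res_of_alive {a : X} {s : O} {b : Bool} (h1 : S.Alive a s) (h2 : S.Res (S.run a s) b) :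
    S.Res a b := by
  obtain ⟨t, h3, h4, h5⟩ := h2
  exact ⟨s + t, by rwa [run_add], S.alive_add h1 h4, by rwa [run_add]⟩

theorem res_halt {a : X} (h : S.halt a) : S.Res a (S.out a) :=
  ⟨0, by simpa using h, fun s hs => absurd hs (by simp), by simp⟩

theorem alive_one {a : X} (h : ¬ S.halt a) : S.Alive a 1 := by
  intro s hs
  have : s = 0 := by simpa using hs
  subst this
  simpa using h

theorem res_step {a : X} {b : Bool} (h : ¬ S.halt a) (h2 : S.Res (S.step a) b) : S.Res a b :=
  S.res_of_alive (S.alive_one h) (by rwa [run_one])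

end Sys

/-- Block simulation of `S1` by `S2`. -/
structure Sim {X1 ι1 X2 ι2 : Type} (S2 : Sys X2 ι2) (S1 : Sys X1 ι1) (R : X2 → X1 → Prop)
    (e : ι1 → ι2) (J : Set ι2) (Len : O → Prop) : Prop where
  dflt : ∃ L, Len L ∧ 0 < L
  cel : ∀ x2 x1, R x2 x1 → ∀ i, S2.cell x2 (e i) = S1.cell x1 i
  fl : ∀ x2 x1, R x2 x1 → ∀ j ∈ J, S2.cell x2 j = true
  blk : ∀ x2 x1, R x2 x1 → ¬ S1.halt x1 → ∃ L, Len L ∧ 0 < L ∧ R (S2.run x2 L) (S1.step x1) ∧
    S2.Alive x2 L ∧ ∀ i s, s < L → S2.cell (S2.run x2 s) (e i) = true →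
      S1.cell x1 i = true ∨ S1.cell (S1.step x1) i = true
  hlt : ∀ x2 x1, R x2 x1 → S1.halt x1 → S2.Res x2 (S1.out x1)
  lim : ∀ v, (∀ j ∈ J, v j = true) → R (S2.lim v) (S1.lim (v ∘ e))

noncomputable def tau (len : O → O → O) (t : O) : O :=
  Ordinal.limitRecOn (motive := fun _ => O) t 0 (fun s x => x + len s x)
    (fun l _ f => ⨆ s : Set.Iio l, f s.1 s.2)

theorem tau_zero (len : O → O → O) : tau len 0 = 0 := by simp [tau]

theorem tau_succ (len : O → O → O) (t : O) : tau len (t + 1) = tau len t + len t (tau len t) := by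
  simp [tau]

theorem tau_limit (len : O → O → O) {l : O} (hl : IsSuccLimit l) :
    tau len l = ⨆ s : Set.Iio l, tau len s.1 := by
  unfold tau
  rw [Ordinal.limitRecOn_limit _ _ _ _ hl]

theorem tau_normal (len : O → O → O) (h : ∀ s x, 0 < len s x) : IsNormal (tau len) := by
  apply IsNormal.of_succ_lt
  · intro a
    rw [succ_eq_add_one, tau_succ]
    simpa using h _ _
  · intro l hl
    rw [tau_limit len hl]
    constructor
    · rintro _ ⟨s, hs, rfl⟩
      exact Ordinal.le_iSup (fun s : Set.Iio l => tau len s.1) ⟨s, hs⟩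
    · intro b hb
      rw [Ordinal.iSup_le_iff]
      intro s
      exact hb ⟨s.1, s.2, rfl⟩

theorem Sim.main {X1 ι1 X2 ι2 : Type} {S2 : Sys X2 ι2} {S1 : Sys X1 ι1} {R : X2 → X1 → Prop}
    {e : ι1 → ι2} {J : Set ι2} {Len : O → Prop} (H : Sim S2 S1 R e J Len) {a2 : X2} {a1 : X1}
    (h0 : R a2 a1) :
    ∃ len : O → O → O, (∀ s x, Len (len s x) ∧ 0 < len s x) ∧ ∀ t, S1.Alive a1 t →
      R (S2.run a2 (tau len t)) (S1.run a1 t) ∧ S2.Alive a2 (tau len t) := by
  have hch : ∀ (x2 : X2) (x1 : X1), ∃ L, Len L ∧ 0 < L ∧ (R x2 x1 → ¬ S1.halt x1 →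
      R (S2.run x2 L) (S1.step x1) ∧
      S2.Alive x2 L ∧ ∀ i s, s < L → S2.cell (S2.run x2 s) (e i) = true →
      S1.cell x1 i = true ∨ S1.cell (S1.step x1) i = true) := by
    intro x2 x1
    by_cases h : R x2 x1 ∧ ¬ S1.halt x1
    · obtain ⟨L, h1, h2, h3⟩ := H.blk x2 x1 h.1 h.2
      exact ⟨L, h1, h2, fun _ _ => h3⟩
    · obtain ⟨L, h1, h2⟩ := H.dflt
      exact ⟨L, h1, h2, fun h3 h4 => absurd ⟨h3, h4⟩ h⟩
  choose L hL1 hL2 hL3 using hch
  let len : O → O → O := fun s x => L (S2.run a2 x) (S1.run a1 s)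
  have hn : IsNormal (tau len) := tau_normal len (fun s x => hL2 _ _)
  refine ⟨len, fun s x => ⟨hL1 _ _, hL2 _ _⟩, ?_⟩
  intro t
  induction t using Ordinal.limitRecOn with
  | zero =>
    intro _
    rw [tau_zero]
    exact ⟨by simpa using h0, fun s hs => absurd hs (by simp)⟩
  | add_one t ih =>
    intro hA
    obtain ⟨h1, h2⟩ := ih (fun s hs => hA s (hs.trans (lt_add_one t)))
    obtain ⟨h3, h4, -⟩ := hL3 _ _ h1 (hA t (lt_add_one t))
    rw [tau_succ]
    refine ⟨?_, S2.alive_add h2 h4⟩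
    rw [S2.run_add, S1.run_succ]
    exact h3
  | limit l hl ih =>
    intro hA
    have ih' := fun s (hs : s < l) => ih s hs (fun r hr => hA r (hr.trans hs))
    have hl2 := hn.map_isSuccLimit hl
    refine ⟨?_, ?_⟩
    · have hJ : ∀ j ∈ J, S2.cell (S2.run a2 (tau len l)) j = true := by
        intro j hj
        rw [S2.cell_limit _ hl2]
        intro s hs
        obtain ⟨r, hr, hsr⟩ := (hn.lt_iff_exists_lt hl).1 hs
        exact ⟨tau len r, hn.strictMono hr, hsr.le, H.fl _ _ (ih' r hr).1 j hj⟩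
      have hv : S2.cell (S2.run a2 (tau len l)) ∘ e = S1.cell (S1.run a1 l) := by
        funext i
        rw [Bool.eq_iff_iff]
        simp only [Function.comp]
        rw [S2.cell_limit _ hl2, S1.cell_limit _ hl]
        constructor
        · intro hh s hs
          obtain ⟨r, hr, hsr, hc⟩ := hh (tau len s) (hn.strictMono hs)
          obtain ⟨u, hu1, hu2⟩ := hn.exists_map_le_lt_map_succ (x := r)
            (by rw [bot_eq_zero, tau_zero]; exact zero_le)
          have hul : u < l := hn.strictMono.lt_iff_lt.1 (hu1.trans_lt hr)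
          have hsu : s ≤ u := by
            have := hn.strictMono.lt_iff_lt.1 (hsr.trans_lt hu2)
            exact lt_succ_iff.1 this
          obtain ⟨d, rfl⟩ := exists_add_of_le hu1
          rw [succ_eq_add_one, tau_succ] at hu2
          have hd : d < len u (tau len u) := by simpa using hu2
          rw [S2.run_add] at hc
          obtain ⟨-, -, h5⟩ := hL3 _ _ (ih' u hul).1 (hA u hul)
          rcases h5 i d hd hc with h6 | h6
          · exact ⟨u, hul, hsu, h6⟩
          · exact ⟨u + 1, hl.add_one_lt hul, hsu.trans (lt_add_one u).le,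
              by rw [S1.run_succ]; exact h6⟩
        · intro hh s hs
          obtain ⟨r, hr, hsr⟩ := (hn.lt_iff_exists_lt hl).1 hs
          obtain ⟨u, hu, hru, hc⟩ := hh r hr
          refine ⟨tau len u, hn.strictMono hu, hsr.le.trans (hn.monotone hru), ?_⟩
          rw [H.cel _ _ (ih' u hu).1]
          exact hc
      rw [S2.run_limit_eq _ hl2, S1.run_limit_eq _ hl, ← hv]
      exact H.lim _ hJ
    · intro s hs
      obtain ⟨r, hr, hsr⟩ := (hn.lt_iff_exists_lt hl).1 hs
      exact (ih' r hr).2 s hsr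

theorem Sim.res {X1 ι1 X2 ι2 : Type} {S2 : Sys X2 ι2} {S1 : Sys X1 ι1} {R : X2 → X1 → Prop}
    {e : ι1 → ι2} {J : Set ι2} {Len : O → Prop} (H : Sim S2 S1 R e J Len) {a2 : X2} {a1 : X1}
    (h0 : R a2 a1) {b : Bool} (h : S1.Res a1 b) : S2.Res a2 b := by
  obtain ⟨len, -, h2⟩ := H.main h0
  obtain ⟨t, h3, h4, rfl⟩ := h
  obtain ⟨h5, h6⟩ := h2 t h4
  exact S2.res_of_alive h6 (H.hlt _ _ h5 h3)

theorem tau_fin (len : O → O → O) (h : ∀ s x, len s x < ω ∧ 0 < len s x) (t : O) :
    tau len t < t + ω := by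
  induction t using Ordinal.limitRecOn with
  | zero => rw [tau_zero]; simp
  | add_one t ih =>
    rw [tau_succ, add_assoc, one_add_omega0]
    obtain ⟨d, hd, hh⟩ := (lt_add_iff_of_isSuccLimit isSuccLimit_omega0).1 ih
    calc tau len t + len t (tau len t) ≤ (t + d) + len t (tau len t) := by gcongr
      _ = t + (d + len t (tau len t)) := add_assoc _ _ _
      _ < t + ω := by
        gcongr
        exact isPrincipal_add_omega0 hd (h _ _).1
  | limit l hl ih =>
    have hn := tau_normal len (fun s x => (h s x).2)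
    have : tau len l ≤ l := by
      rw [hn.le_iff_forall_le hl]
      intro s hs
      refine (ih s hs).le.trans ?_
      rw [add_le_iff_of_isSuccLimit isSuccLimit_omega0]
      intro d hd
      obtain ⟨n, rfl⟩ := lt_omega0.1 hd
      exact (hl.add_natCast_lt hs n).le
    exact this.trans_lt (by simp)

theorem tau_fin_limit (len : O → O → O) (h : ∀ s x, len s x < ω ∧ 0 < len s x) {l : O}
    (hl : IsSuccLimit l) : tau len l = l := by
  have hn := tau_normal len (fun s x => (h s x).2)
  apply le_antisymm _ hn.strictMono.le_apply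
  rw [hn.le_iff_forall_le hl]
  intro s hs
  refine (tau_fin len h s).le.trans ?_
  rw [add_le_iff_of_isSuccLimit isSuccLimit_omega0]
  intro d hd
  obtain ⟨n, rfl⟩ := lt_omega0.1 hd
  exact (hl.add_natCast_lt hs n).le

theorem tau_const (len : O → O → O) (L : O) (h : ∀ s x, len s x = L ∧ 0 < len s x) (t : O) :
    tau len t = L * t := by
  induction t using Ordinal.limitRecOn with
  | zero => simp [tau_zero]
  | add_one t ih => rw [tau_succ, (h _ _).1, ih, mul_add_one]
  | limit l hl ih =>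
    have hn := tau_normal len (fun s x => (h s x).2)
    apply eq_of_forall_lt_iff
    intro c
    rw [hn.lt_iff_exists_lt hl, lt_mul_iff_of_isSuccLimit hl]
    constructor <;> rintro ⟨s, hs, hc⟩ <;> exact ⟨s, hs, by simpa [ih s hs] using hc⟩

/-- Transfer of parametrised results along a finite-step simulation. -/
theorem Sim.pres {X1 ι1 X2 ι2 : Type} {S2 : Sys X2 ι2} {S1 : Sys X1 ι1} {R : X2 → X1 → Prop}
    {e : ι1 → ι2} (H : Sim S2 S1 R e ∅ (· < ω)) {a2 : X2} {a1 : X1}
    (h0 : R a2 a1) (hov : ∀ v, R (S2.ovr (S2.lim v)) (S1.ovr (S1.lim (v ∘ e))))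
    {β : O} (hβ : IsSuccLimit β) {b : Bool} (h : S1.PRes a1 β b) : S2.PRes a2 β b := by
  obtain ⟨len, h1, h2⟩ := H.main h0
  obtain ⟨h3, h4⟩ := h2 β h.1
  rw [tau_fin_limit len h1 hβ] at h3 h4
  refine ⟨h4, H.res (a1 := S1.ovr (S1.run a1 β)) ?_ h.2⟩
  have hv : S2.cell (S2.run a2 β) ∘ e = S1.cell (S1.run a1 β) := by
    funext i
    exact H.cel _ _ h3 i
  rw [S2.run_limit_eq _ hβ, S1.run_limit_eq _ hβ, ← hv]
  exact hov _

end Pool.Agent.MP_bf5815_lc

end

section

/-! Finite runs, omega phases, lockstep simulation, strong loops. -/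

namespace Pool.Agent.MP_bf5815_lc

open Ordinal Order
open scoped Classical

namespace Sys

variable {X ι : Type} (S : Sys X ι)

def Steps (P : X → Prop) (x y : X) : Prop :=
  ∃ L : ℕ, 0 < L ∧ S.step^[L] x = y ∧ ∀ s, s < L → P (S.step^[s] x)

variable {S}

theorem Steps.one {P : X → Prop} {x y : X} (h : P x) (hy : S.step x = y) : S.Steps P x y :=
  ⟨1, one_pos, hy, fun s hs => by
    have : s = 0 := by omega
    subst this
    exact h⟩

theorem Steps.trans {P : X → Prop} {x y z : X} (h1 : S.Steps P x y) (h2 : S.Steps P y z) :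
    S.Steps P x z := by
  obtain ⟨L1, a1, a2, a3⟩ := h1
  obtain ⟨L2, b1, b2, b3⟩ := h2
  refine ⟨L2 + L1, by omega, by rw [Function.iterate_add_apply, a2, b2], ?_⟩
  intro s hs
  rcases lt_or_ge s L1 with h | h
  · exact a3 s h
  · obtain ⟨d, rfl⟩ := Nat.exists_eq_add_of_le' h
    rw [Function.iterate_add_apply, a2]
    exact b3 d (by omega)

theorem Steps.cons {P : X → Prop} {x y z : X} (h : P x) (hy : S.step x = y)
    (h2 : S.Steps P y z) : S.Steps P x z :=
  (Steps.one h hy).trans h2

theorem Steps.mono {P Q : X → Prop} {x y : X} (h : S.Steps P x y) (hPQ : ∀ z, P z → Q z) :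
    S.Steps Q x y := by
  obtain ⟨L1, a1, a2, a3⟩ := h
  exact ⟨L1, a1, a2, fun s hs => hPQ _ (a3 s hs)⟩

theorem Steps.ord {P : X → Prop} {x y : X} (h : S.Steps P x y) :
    ∃ L : O, L < ω ∧ 0 < L ∧ S.run x L = y ∧ ∀ s, s < L → P (S.run x s) := by
  obtain ⟨L1, a1, a2, a3⟩ := h
  refine ⟨L1, natCast_lt_omega0 _, by exact_mod_cast a1, by rw [run_nat, a2], ?_⟩
  intro s hs
  obtain ⟨n, rfl⟩ := lt_omega0.1 (hs.trans (natCast_lt_omega0 _))
  rw [run_nat]
  exact a3 n (by exact_mod_cast hs)

theorem Steps.res {x y : X} {b : Bool} (h : S.Steps (fun z => ¬ S.halt z) x y) (hy : S.Res y b) :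
    S.Res x b := by
  obtain ⟨L, -, -, h3, h4⟩ := h.ord
  exact S.res_of_alive (s := L) h4 (by rwa [h3])

theorem omega_phase (I P : ℕ → X → Prop)
    (hI : ∀ n x, I n x → ∃ y, S.Steps (P n) x y ∧ I (n + 1) y) {x : X} (h0 : I 0 x) :
    (∀ s, s < ω → ∃ n, P n (S.run x s)) ∧
      ∀ i b N, (∀ n, N ≤ n → ∀ z, P n z → S.cell z i = b) → S.cell (S.run x ω) i = b := by
  have h1 : ∀ d N x, I N x → ∃ n, N ≤ n ∧ P n (S.step^[d] x) := by
    intro d
    induction d using Nat.strong_induction_on with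
    | _ d ih =>
      intro N x hx
      obtain ⟨y, ⟨L, a1, a2, a3⟩, hy⟩ := hI N x hx
      rcases lt_or_ge d L with h | h
      · exact ⟨N, le_rfl, a3 d h⟩
      · obtain ⟨d', rfl⟩ := Nat.exists_eq_add_of_le' h
        obtain ⟨n, hn, hp⟩ := ih d' (by omega) (N + 1) y hy
        exact ⟨n, by omega, by rwa [Function.iterate_add_apply, a2]⟩
  have h2 : ∀ N, ∃ k : ℕ, I N (S.step^[k] x) := by
    intro N
    induction N with
    | zero => exact ⟨0, h0⟩
    | succ N ih =>
      obtain ⟨k, hk⟩ := ih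
      obtain ⟨y, ⟨L, a1, a2, a3⟩, hy⟩ := hI N _ hk
      exact ⟨L + k, by rwa [Function.iterate_add_apply, a2]⟩
  constructor
  · intro s hs
    obtain ⟨n, rfl⟩ := lt_omega0.1 hs
    obtain ⟨m, -, hm⟩ := h1 n 0 x h0
    exact ⟨m, by rwa [run_nat]⟩
  · intro i b N hN
    obtain ⟨k, hk⟩ := h2 N
    apply S.cell_limit_const x isSuccLimit_omega0 i b (natCast_lt_omega0 k)
    intro r hr hr'
    obtain ⟨n, rfl⟩ := lt_omega0.1 hr'
    have : k ≤ n := by exact_mod_cast hr
    obtain ⟨d, rfl⟩ := Nat.exists_eq_add_of_le' this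
    obtain ⟨m, hm, hp⟩ := h1 d N _ hk
    rw [run_nat, Function.iterate_add_apply]
    exact hN m hm _ hp

/-- A strong loop repeats forever. -/
theorem strong_loop {x : X} {p : O} (hp : 0 < p) (hx : x = S.lim (S.cell x))
    (h1 : S.run x p = x) (h2 : ∀ i, S.cell x i = false → ∀ s, s < p → S.cell (S.run x s) i = false)
    (η : O) : S.run x (p * η) = x := by
  induction η using Ordinal.limitRecOn with
  | zero => simp
  | add_one η ih => rw [mul_add_one, run_add, ih, h1]
  | limit l hl ih =>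
    have hl2 := isSuccLimit_mul_right hp hl
    rw [S.run_limit_eq _ hl2]
    conv_rhs => rw [hx]
    congr 1
    funext i
    cases hc : S.cell x i with
    | true =>
      rw [S.cell_limit _ hl2]
      intro s hs
      obtain ⟨c, hc1, hc2⟩ := (lt_mul_iff_of_isSuccLimit hl).1 hs
      exact ⟨p * c, by gcongr, hc2.le, by rw [ih c hc1, hc]⟩
    | false =>
      apply S.cell_limit_const x hl2 i false hl2.bot_lt
      intro r _ hr
      have h3 : r / p < l := (div_lt hp.ne').2 hr
      rw [← div_add_mod r p, run_add, ih _ h3]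
      exact h2 i hc _ (mod_lt _ hp.ne')

/-- After a strong loop inside a principal ordinal, all its multiples give the same state. -/
theorem strong_loop_principal {a : X} {ζ p : O} (hp : 0 < p) (hζ : IsSuccLimit ζ)
    (h1 : S.run a (ζ + p) = S.run a ζ)
    (h2 : ∀ i, S.cell (S.run a ζ) i = false → ∀ s, s < p → S.cell (S.run a (ζ + s)) i = false)
    {κ ξ : O} (hκ : IsPrincipal (· + ·) κ) (hle : ζ + p ≤ κ) (hξ : 0 < ξ) :
    S.run a (κ * ξ) = S.run a ζ := by
  have hζκ : ζ < κ := lt_of_lt_of_le (by simpa using hp) hle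
  have hpκ : p ≤ κ := le_trans le_add_self hle
  have h3 : κ = p * (κ / p) := by
    have h4 := div_add_mod κ p
    have h5 : κ % p < κ := (mod_lt _ hp.ne').trans_le hpκ
    by_contra h6
    have h7 : p * (κ / p) < κ := lt_of_le_of_ne (mul_div_le _ _) (Ne.symm h6)
    have := hκ h7 h5
    simp only at this
    rw [h4] at this
    exact lt_irrefl _ this
  have h4 : κ * ξ = ζ + p * (κ / p * ξ) := by
    rw [← mul_assoc, ← h3]
    obtain ⟨ξ', rfl⟩ := exists_add_of_le (one_le_iff_pos.2 hξ)
    rw [mul_add, mul_one, ← add_assoc, hκ.add_eq_right hζκ]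
  rw [h4, run_add]
  apply strong_loop hp (S.run_limit_eq a hζ)
  · rw [← run_add, h1]
  · intro i hi s hs
    rw [← run_add]
    exact h2 i hi s hs

/-- Every run with countably many cells has a countable strong loop. -/
theorem exists_countable_loop [Countable ι] (a : X) :
    ∃ ζ p : O, 0 < p ∧ IsSuccLimit ζ ∧ ζ + p < ω₁ ∧ S.run a (ζ + p) = S.run a ζ ∧
      ∀ i, S.cell (S.run a ζ) i = false → ∀ s, s < p → S.cell (S.run a (ζ + s)) i = false := by
  let Z : ι → Prop := fun i => ∃ s, s < ω₁ ∧ ∀ t, s ≤ t → t < ω₁ → S.cell (S.run a t) i = false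
  have hω : IsSuccLimit (ω₁ : O) := Cardinal.isSuccLimit_omega 1
  have h1 : ∀ i, ∃ s : O, s < ω₁ ∧ (Z i → ∀ t, s ≤ t → t < ω₁ → S.cell (S.run a t) i = false) := by
    intro i
    by_cases h : Z i
    · obtain ⟨s, h1, h2⟩ := h
      exact ⟨s, h1, fun _ => h2⟩
    · exact ⟨0, hω.bot_lt, fun h' => absurd h' h⟩
  choose z hz1 hz2 using h1
  have h2 : ∀ (s : O) i, ∃ t : O, s < ω₁ → t < ω₁ ∧ (¬ Z i → s ≤ t ∧
      S.cell (S.run a t) i = true) := by
    intro s i
    by_cases h : Z i
    · exact ⟨0, fun _ => ⟨hω.bot_lt, fun h' => absurd h h'⟩⟩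
    · by_cases hs : s < ω₁
      · have h' := h
        simp only [Z, not_exists, not_and, not_forall] at h'
        obtain ⟨t, h3, h4, h5⟩ := h' s hs
        exact ⟨t, fun _ => ⟨h4, fun _ => ⟨h3, by simpa using h5⟩⟩⟩
      · exact ⟨0, fun h => absurd h hs⟩
  choose w hw using h2
  let g : O → O := fun s => max s (⨆ i, w s i) + 1
  have hg1 : ∀ s, s < ω₁ → g s < ω₁ := fun s hs =>
    hω.add_one_lt (max_lt hs (iSup_lt_omega_one fun i => (hw s i hs).1))
  have hg2 : ∀ s, s < g s := fun s => (le_max_left _ _).trans_lt (lt_add_one _)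
  have hg3 : ∀ s i, w s i < g s := fun s i =>
    ((Ordinal.le_iSup (w s) i).trans (le_max_right _ _)).trans_lt (lt_add_one _)
  have key : ∀ s : O, s < ω₁ → (∀ i, z i ≤ s) → ∃ ζ, s < ζ ∧ ζ < ω₁ ∧ IsSuccLimit ζ ∧
      ∀ i, S.cell (S.run a ζ) i = decide (¬ Z i) := by
    intro s hs hzs
    have hit : ∀ n, g^[n] s < ω₁ := by
      intro n
      induction n with
      | zero => exact hs
      | succ n ih => rw [Function.iterate_succ_apply']; exact hg1 _ ih
    have hlt : ∀ n, g^[n] s < ⨆ n, g^[n] s := by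
      intro n
      refine lt_of_lt_of_le ?_ (Ordinal.le_iSup (fun n => g^[n] s) (n + 1))
      rw [Function.iterate_succ_apply']
      exact hg2 _
    have hlim : IsSuccLimit (⨆ n, g^[n] s) := by
      rw [Order.isSuccLimit_iff]
      refine ⟨fun h => ?_, isSuccPrelimit_of_succ_lt fun c hc => ?_⟩
      · exact absurd (hlt 0) (h.not_lt)
      · obtain ⟨n, hn⟩ := Ordinal.lt_iSup_iff.1 hc
        exact (succ_le_of_lt hn).trans_lt (hlt n)
    have hsup : (⨆ n, g^[n] s) < ω₁ := iSup_lt_omega_one hit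
    refine ⟨_, hlt 0, hsup, hlim, fun i => ?_⟩
    by_cases h : Z i
    · simp only [h, not_true, decide_false]
      apply S.cell_limit_const a hlim i false (hlt 0)
      intro r hr hr'
      exact hz2 i h r ((hzs i).trans hr) (hr'.trans hsup)
    · simp only [h, not_false_iff, decide_true]
      rw [S.cell_limit a hlim]
      intro c hc
      obtain ⟨n, hn⟩ := Ordinal.lt_iSup_iff.1 hc
      obtain ⟨-, h5⟩ := hw _ i (hit n)
      refine ⟨w (g^[n] s) i, ?_, hn.le.trans (h5 h).1, (h5 h).2⟩
      refine (hg3 _ i).trans ?_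
      have := hlt (n + 1)
      rwa [Function.iterate_succ_apply'] at this
  obtain ⟨ζ, h3, h4, h5, h6⟩ := key (⨆ i, z i) (iSup_lt_omega_one hz1) (Ordinal.le_iSup z)
  obtain ⟨ζ', h7, h8, h9, h10⟩ := key ζ h4 (fun i => (Ordinal.le_iSup z i).trans h3.le)
  obtain ⟨p, rfl⟩ := exists_add_of_le h7.le
  refine ⟨ζ, p, by simpa using h7, h5, h8, ?_, ?_⟩
  · rw [S.run_limit_eq a h9, S.run_limit_eq a h5]
    congr 1
    funext i
    rw [h6, h10]
  · intro i hi s hs
    rw [h6] at hi
    have hZ : Z i := by simpa using hi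
    refine hz2 i hZ _ (((Ordinal.le_iSup z i).trans h3.le).trans le_self_add) ?_
    exact lt_trans (by gcongr) h8

end Sys

theorem Sim.ofSteps {X1 ι1 X2 ι2 : Type} {S2 : Sys X2 ι2} {S1 : Sys X1 ι1} {R : X2 → X1 → Prop}
    {e : ι1 → ι2}
    (cel : ∀ x2 x1, R x2 x1 → ∀ i, S2.cell x2 (e i) = S1.cell x1 i)
    (blk : ∀ x2 x1, R x2 x1 → ¬ S1.halt x1 → ∃ y, R y (S1.step x1) ∧
      S2.Steps (fun z => ¬ S2.halt z ∧ ∀ i, S2.cell z (e i) = true →
        S1.cell x1 i = true ∨ S1.cell (S1.step x1) i = true) x2 y)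
    (hlt : ∀ x2 x1, R x2 x1 → S1.halt x1 → S2.Res x2 (S1.out x1))
    (lim : ∀ v, R (S2.lim v) (S1.lim (v ∘ e))) : Sim S2 S1 R e ∅ (· < ω) where
  dflt := ⟨1, one_lt_omega0, one_pos⟩
  cel := cel
  fl := fun _ _ _ j hj => absurd hj (by simp)
  blk := by
    intro x2 x1 h1 h2
    obtain ⟨y, h3, h4⟩ := blk x2 x1 h1 h2
    obtain ⟨L, h5, h6, h7, h8⟩ := h4.ord
    exact ⟨L, h5, h6, by rwa [h7], fun s hs => (h8 s hs).1, fun i s hs => (h8 s hs).2 i⟩
  hlt := hlt
  lim := fun v _ => lim v

end Pool.Agent.MP_bf5815_lc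

end

section

/-! The machines of the statement as systems. -/

namespace Pool.Agent.MP_bf5815_lc

open Ordinal Order
open scoped Classical

variable {Q : Type} (P : Prog Q)

def rawSys : Sys (Config Q) (Fin 3 × ℕ) where
  cell c i := c.tape i.1 i.2
  step := P.step
  lim v := ⟨P.lim, 0, fun k n => v (k, n)⟩
  cell_lim _ := rfl
  halt c := c.state = P.halt
  out c := c.tape 2 0
  ovr c := { c with state := P.spec }

theorem prun_zero (α : O) (y : ℕ → Bool) : P.run α y 0 = P.interrupt α 0 (P.init y) := by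
  simp [Prog.run]

theorem prun_succ (α : O) (y : ℕ → Bool) (t : O) :
    P.run α y (t + 1) = P.interrupt α (t + 1) (P.step (P.run α y t)) := by
  simp [Prog.run]

theorem prun_limit (α : O) (y : ℕ → Bool) {l : O} (hl : IsSuccLimit l) :
    P.run α y l = P.interrupt α l ((rawSys P).lim (fun i =>
      decide (∀ s, s < l → ∃ r, r < l ∧ s ≤ r ∧ (P.run α y r).tape i.1 i.2 = true))) := by
  unfold Prog.run
  rw [Ordinal.limitRecOn_limit _ _ _ _ hl]
  simp only [exists_prop, rawSys]

theorem prun_le (α : O) (y : ℕ → Bool) (t : O) (ht : t ≤ α) :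
    P.run α y t = P.interrupt α t ((rawSys P).run (P.init y) t) := by
  induction t using Ordinal.limitRecOn with
  | zero => rw [prun_zero, Sys.run_zero]
  | add_one t ih =>
    have h1 : t < α := (lt_add_one t).trans_le ht
    rw [prun_succ, ih h1.le, Sys.run_succ]
    simp [Prog.interrupt, h1.ne, rawSys]
  | limit l hl ih =>
    rw [prun_limit P α y hl, Sys.run_limit _ _ hl]
    congr 2
    funext i
    apply decide_eq_decide.2
    have : ∀ r, r < l → P.run α y r = (rawSys P).run (P.init y) r := by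
      intro r hr
      have h1 : r < α := hr.trans_le ht
      rw [ih r hr h1.le]
      simp [Prog.interrupt, h1.ne]
    constructor <;> intro H s hs <;> obtain ⟨r, h1, h2, h3⟩ := H s hs
    · exact ⟨r, h1, h2, by rw [← this r h1]; exact h3⟩
    · exact ⟨r, h1, h2, by rw [this r h1]; exact h3⟩

theorem prun_lt (α : O) (y : ℕ → Bool) (t : O) (ht : t < α) :
    P.run α y t = (rawSys P).run (P.init y) t := by
  rw [prun_le P α y t ht.le]
  simp [Prog.interrupt, ht.ne]

theorem prun_add (α : O) (y : ℕ → Bool) (t : O) :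
    P.run α y (α + t) =
      (rawSys P).run ((rawSys P).ovr ((rawSys P).run (P.init y) α)) t := by
  induction t using Ordinal.limitRecOn with
  | zero =>
    rw [add_zero, prun_le P α y α le_rfl, Sys.run_zero]
    simp [Prog.interrupt, rawSys]
  | add_one t ih =>
    have h1 : α + t + 1 ≠ α := by
      have : α < α + t + 1 := lt_of_le_of_lt le_self_add (lt_add_one _)
      exact this.ne'
    rw [← add_assoc, prun_succ, ih, Sys.run_succ]
    simp [Prog.interrupt, h1, rawSys]
  | limit l hl ih =>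
    have h1 : α + l ≠ α := by simpa using hl.ne_bot
    rw [prun_limit P α y (isSuccLimit_add α hl), Sys.run_limit _ _ hl]
    simp only [Prog.interrupt, h1, if_false]
    congr 1
    funext i
    apply decide_eq_decide.2
    constructor
    · intro H u hu
      obtain ⟨r, hr, hsr, hc⟩ := H (α + u) (by gcongr)
      have hsr' : α ≤ r := le_trans le_self_add hsr
      obtain ⟨r', rfl⟩ := exists_add_of_le hsr'
      have h1 : r' < l := by simpa using hr
      exact ⟨r', h1, by simpa using hsr, by rw [← ih r' h1]; exact hc⟩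
    · intro H u hu
      obtain ⟨d, hd, hud⟩ := (lt_add_iff_of_isSuccLimit hl).1 hu
      obtain ⟨r, hr, hdr, hc⟩ := H d hd
      exact ⟨α + r, by gcongr, hud.le.trans (by gcongr), by rw [ih r hr]; exact hc⟩

theorem halts_of_pres {β : O} {y : ℕ → Bool} {b : Bool}
    (h : (rawSys P).PRes (P.init y) β b) :
    ∃ t, P.HaltsAt β y t ∧ (P.run β y t).tape 2 0 = b := by
  obtain ⟨h1, t, h2, h3, h4⟩ := h
  refine ⟨β + t, ⟨by rw [prun_add]; exact h2, ?_⟩, by rw [prun_add]; exact h4⟩
  intro s hs
  rcases lt_or_ge s β with h | h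
  · rw [prun_lt P β y s h]
    exact h1 s h
  · obtain ⟨r, rfl⟩ := exists_add_of_le h
    rw [prun_add]
    exact h3 r (by simpa using hs)

theorem pres_of_halts {α t : O} {y : ℕ → Bool} (h : P.HaltsAt α y t) :
    (t < α ∧ (rawSys P).halt ((rawSys P).run (P.init y) t) ∧ (rawSys P).Alive (P.init y) t ∧
      (rawSys P).out ((rawSys P).run (P.init y) t) = (P.run α y t).tape 2 0) ∨
    (rawSys P).PRes (P.init y) α ((P.run α y t).tape 2 0) := by
  obtain ⟨h1, h2⟩ := h
  rcases lt_or_ge t α with h | h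
  · left
    refine ⟨h, by rw [← prun_lt P α y t h]; exact h1, ?_, by rw [← prun_lt P α y t h]; rfl⟩
    intro s hs
    rw [← prun_lt P α y s (hs.trans h)]
    exact h2 s hs
  · right
    obtain ⟨r, rfl⟩ := exists_add_of_le h
    refine ⟨?_, r, by rw [← prun_add]; exact h1, ?_, by rw [← prun_add]; rfl⟩
    · intro s hs
      rw [← prun_lt P α y s hs]
      exact h2 s (hs.trans_le le_self_add)
    · intro s hs
      rw [← prun_add]
      exact h2 _ (by gcongr)

end Pool.Agent.MP_bf5815_lc

end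

section

/-! Model A: one head, wide columns, moves left / stay / right; simulated by the basic model. -/

namespace Pool.Agent.MP_bf5815_lc

open Ordinal Order
open scoped Classical

inductive Mv | L | S | R
  deriving Fintype

def Mv.app : Mv → ℕ → ℕ
  | .L, n => n - 1
  | .S, n => n
  | .R, n => n + 1

structure AProg (Q ι : Type) where
  start : Q
  lim : Q
  spec : Q
  distinct : [start, lim, spec].Nodup
  halt : Q → Prop
  outc : ι
  trans : Q → (ι → Bool) → Q × (ι → Bool) × Mv

structure ACfg (Q ι : Type) where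
  state : Q
  head : ℕ
  col : ℕ → ι → Bool

def aSys {Q ι : Type} (A : AProg Q ι) : Sys (ACfg Q ι) (ι × ℕ) where
  cell c i := c.col i.2 i.1
  step c :=
    let r := A.trans c.state (c.col c.head)
    ⟨r.1, r.2.2.app c.head, fun n => if n = c.head then r.2.1 else c.col n⟩
  lim v := ⟨A.lim, 0, fun n i => v (i, n)⟩
  cell_lim _ := rfl
  halt c := A.halt c.state
  out c := c.col 0 A.outc
  ovr c := { c with state := A.spec }

abbrev WT (K : ℕ) := Fin (K + 1) × Fin 3

inductive RS (Q : Type) (K : ℕ)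
  | rd (q : Q) (j : Fin (K + 1)) (buf : WT K → Bool)
  | bk (q : Q) (w : WT K → Bool) (m : Mv) (j : Fin (K + 1))
  | wr (q : Q) (w : WT K → Bool) (m : Mv) (j : Fin (K + 1))
  | lf (q : Q) (j : Fin (2 * (K + 1)))
  | halt

set_option synthInstance.maxSize 1024 in
instance {Q : Type} [Finite Q] (K : ℕ) : Finite (RS Q K) :=
  Finite.of_equiv _ (proxy_equiv% (RS Q K))

variable {Q : Type} {K : ℕ} (A : AProg Q (WT K))

def RS.goto (q : Q) (c : ℕ) : RS Q K :=
  if h : 0 < c ∧ c ≤ 2 * (K + 1) then .lf q ⟨c - 1, by omega⟩ else .rd q 0 (fun _ => false)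

def Mv.cnt (K : ℕ) : Mv → ℕ
  | .L => 2 * (K + 1)
  | .S => K + 1
  | .R => 0

noncomputable def rawTrans : RS Q K → (Fin 3 → Bool) → RS Q K × (Fin 3 → Bool) × Bool
  | .rd q j buf, s =>
    if A.halt q then (.halt, s, true) else
    let buf' : WT K → Bool := fun i => if i.1 = j then s i.2 else buf i
    if h : j.1 + 1 < K + 1 then (.rd q ⟨j.1 + 1, h⟩ buf', s, true)
    else (.bk (A.trans q buf').1 (A.trans q buf').2.1 (A.trans q buf').2.2 0, s, true)
  | .bk q w m j, s =>
    if h : j.1 + 1 < K + 1 then (.bk q w m ⟨j.1 + 1, h⟩, s, false) else (.wr q w m 0, s, false)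
  | .wr q w m j, _ =>
    if h : j.1 + 1 < K + 1 then (.wr q w m ⟨j.1 + 1, h⟩, fun k => w (j, k), true)
    else (RS.goto q (m.cnt K), fun k => w (j, k), true)
  | .lf q j, s => (RS.goto q j.1, s, false)
  | .halt, s => (.halt, s, true)

noncomputable def rawOf : Prog (RS Q K) where
  start := .rd A.start 0 (fun _ => false)
  lim := .rd A.lim 0 (fun _ => false)
  halt := .halt
  spec := .rd A.spec 0 (fun _ => false)
  distinct := by
    have := A.distinct
    simp only [List.nodup_cons, List.mem_cons, List.not_mem_nil, or_false, not_or,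
      List.nodup_nil, and_true, not_false_iff] at this ⊢
    simp [this]
  trans := rawTrans A

theorem same_tape (T : Fin 3 → ℕ → Bool) (h : ℕ) :
    (fun k n => if n = h then T k h else T k n) = T := by
  funext k n
  split_ifs with hn
  · rw [hn]
  · rfl

theorem blk_inj {n h : ℕ} {i j : Fin (K + 1)} :
    n * (K + 1) + i.1 = h * (K + 1) + j.1 ↔ n = h ∧ i = j := by
  constructor
  · intro H
    have h1 : (n * (K + 1) + i.1) / (K + 1) = n := by
      rw [add_comm, Nat.add_mul_div_right _ _ (Nat.succ_pos K), Nat.div_eq_of_lt i.2, zero_add]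
    have h2 : (h * (K + 1) + j.1) / (K + 1) = h := by
      rw [add_comm, Nat.add_mul_div_right _ _ (Nat.succ_pos K), Nat.div_eq_of_lt j.2, zero_add]
    have h3 : n = h := by rw [← h1, ← h2, H]
    subst h3
    exact ⟨rfl, Fin.ext (by omega)⟩
  · rintro ⟨rfl, rfl⟩
    rfl

section phases

variable (Pz : Config (RS Q K) → Prop) (T : Fin 3 → ℕ → Bool)

theorem rd_phase (hP : ∀ s h, s ≠ RS.halt → Pz ⟨s, h, T⟩) (q : Q) (hq : ¬ A.halt q) (p : ℕ)
    (c : WT K → Bool) (hc : ∀ i k, T k (p + i.1) = c (i, k)) :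
    ∀ (d : ℕ) (j : Fin (K + 1)) (buf : WT K → Bool), j.1 + d = K →
      (∀ i k, i < j → buf (i, k) = c (i, k)) →
      (rawSys (rawOf A)).Steps Pz ⟨.rd q j buf, p + j.1, T⟩
        ⟨.bk (A.trans q c).1 (A.trans q c).2.1 (A.trans q c).2.2 0, p + (K + 1), T⟩ := by
  intro d
  induction d with
  | zero =>
    intro j buf hj hb
    apply Sys.Steps.one (hP _ _ (by simp))
    have h1 : ¬ (j.1 + 1 < K + 1) := by omega
    have h2 : (fun i : WT K => if i.1 = j then T i.2 (p + j.1) else buf i) = c := by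
      funext ⟨i, k⟩
      by_cases h : i = j
      · subst h; simp [hc]
      · have : i < j := by
          have := i.2
          have h' : i.1 ≠ j.1 := fun h' => h (Fin.ext h')
          exact Fin.lt_def.2 (by omega)
        simp [h, hb i k this]
    simp only [rawSys, Prog.step, rawOf, rawTrans, hq, if_false, h1, dif_neg, not_false_iff, h2,
      if_true, same_tape]
    congr 1
    omega
  | succ d ih =>
    intro j buf hj hb
    have h1 : j.1 + 1 < K + 1 := by omega
    refine Sys.Steps.cons (hP _ _ (by simp)) ?_ (ih ⟨j.1 + 1, h1⟩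
      (fun i : WT K => if i.1 = j then T i.2 (p + j.1) else buf i) (by simp; omega) ?_)
    · simp only [rawSys, Prog.step, rawOf, rawTrans, hq, if_false, h1, dif_pos, if_true,
        same_tape]
      congr 1
    · intro i k hi
      by_cases h : i = j
      · subst h; simp [hc]
      · have : i < j := by
          have h' : i.1 ≠ j.1 := fun h' => h (Fin.ext h')
          have := Fin.lt_def.1 hi
          simp only at this
          exact Fin.lt_def.2 (by omega)
        simp [h, hb i k this]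

theorem bk_phase (hP : ∀ s h, s ≠ RS.halt → Pz ⟨s, h, T⟩) (q : Q) (w : WT K → Bool) (m : Mv)
    (p : ℕ) :
    ∀ (d : ℕ) (j : Fin (K + 1)), j.1 + d = K →
      (rawSys (rawOf A)).Steps Pz ⟨.bk q w m j, p + (d + 1), T⟩ ⟨.wr q w m 0, p, T⟩ := by
  intro d
  induction d with
  | zero =>
    intro j hj
    apply Sys.Steps.one (hP _ _ (by simp))
    have h1 : ¬ (j.1 + 1 < K + 1) := by omega
    simp [rawSys, Prog.step, rawOf, rawTrans, h1, same_tape]
  | succ d ih =>
    intro j hj
    have h1 : j.1 + 1 < K + 1 := by omega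
    refine Sys.Steps.cons (hP _ _ (by simp)) ?_ (ih ⟨j.1 + 1, h1⟩ (by simp; omega))
    simp only [rawSys, Prog.step, rawOf, rawTrans, h1, dif_pos, same_tape]
    congr 1

theorem lf_phase (hP : ∀ s h, s ≠ RS.halt → Pz ⟨s, h, T⟩) (q : Q) :
    ∀ (d : ℕ) (p : ℕ), d + 1 ≤ 2 * (K + 1) →
      (rawSys (rawOf A)).Steps Pz ⟨RS.goto q (d + 1), p, T⟩
        ⟨.rd q 0 (fun _ => false), p - (d + 1), T⟩ := by
  intro d
  induction d with
  | zero =>
    intro p hd
    have h1 : 0 < 0 + 1 ∧ 0 + 1 ≤ 2 * (K + 1) := by omega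
    rw [RS.goto, dif_pos h1]
    apply Sys.Steps.one (hP _ _ (by simp))
    simp [rawSys, Prog.step, rawOf, rawTrans, same_tape, RS.goto]
  | succ d ih =>
    intro p hd
    have h1 : 0 < d + 1 + 1 ∧ d + 1 + 1 ≤ 2 * (K + 1) := by omega
    rw [RS.goto, dif_pos h1]
    have h2 := ih (p - 1) (by omega)
    rw [show p - 1 - (d + 1) = p - (d + 1 + 1) by omega] at h2
    refine Sys.Steps.cons (hP _ _ (by simp)) ?_ h2
    simp [rawSys, Prog.step, rawOf, rawTrans, same_tape]

theorem wr_phase (col : ℕ → WT K → Bool) (h : ℕ) (q : Q) (w : WT K → Bool) (m : Mv)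
    (hP : ∀ s hd T' (j : ℕ), s ≠ RS.halt → (∀ n i k, T' k (n * (K + 1) + i.1) =
      if n = h ∧ i.1 < j then w (i, k) else col n (i, k)) → Pz ⟨s, hd, T'⟩) :
    ∀ (d : ℕ) (j : Fin (K + 1)) (T : Fin 3 → ℕ → Bool), j.1 + d = K →
      (∀ n i k, T k (n * (K + 1) + i.1) = if n = h ∧ i.1 < j.1 then w (i, k) else col n (i, k)) →
      ∃ T', (rawSys (rawOf A)).Steps Pz ⟨.wr q w m j, h * (K + 1) + j.1, T⟩
        ⟨RS.goto q (m.cnt K), h * (K + 1) + (K + 1), T'⟩ ∧
        ∀ n i k, T' k (n * (K + 1) + i.1) = if n = h then w (i, k) else col n (i, k) := by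
  have key : ∀ (j : Fin (K + 1)) (T : Fin 3 → ℕ → Bool),
      (∀ n i k, T k (n * (K + 1) + i.1) = if n = h ∧ i.1 < j.1 then w (i, k) else col n (i, k)) →
      ∀ n (i : Fin (K + 1)) k, (if n * (K + 1) + i.1 = h * (K + 1) + j.1 then w (j, k)
        else T k (n * (K + 1) + i.1)) =
        if n = h ∧ i.1 < j.1 + 1 then w (i, k) else col n (i, k) := by
    intro j T hT n i k
    rw [hT]
    simp only [blk_inj]
    by_cases h1 : n = h
    · by_cases h2 : i = j
      · subst h2; simp [h1]
      · have h' : i.1 ≠ j.1 := fun h' => h2 (Fin.ext h')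
        have h3 : (i.1 < j.1 + 1) ↔ (i.1 < j.1) := by omega
        simp [h1, h2, h3]
    · simp [h1]
  intro d
  induction d with
  | zero =>
    intro j T hj hT
    have h1 : ¬ (j.1 + 1 < K + 1) := by omega
    refine ⟨fun k n => if n = h * (K + 1) + j.1 then w (j, k) else T k n,
      Sys.Steps.one (hP _ _ _ _ (by simp) hT) ?_, ?_⟩
    · simp only [rawSys, Prog.step, rawOf, rawTrans, h1, dif_neg, not_false_iff, if_true]
      congr 1
      omega
    · intro n i k
      simp only
      rw [key j T hT]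
      have : i.1 < j.1 + 1 := by have := i.2; omega
      simp [this]
  | succ d ih =>
    intro j T hj hT
    have h1 : j.1 + 1 < K + 1 := by omega
    obtain ⟨T', h2, h3⟩ := ih ⟨j.1 + 1, h1⟩
      (fun k n => if n = h * (K + 1) + j.1 then w (j, k) else T k n) (by simp; omega)
      (fun n i k => key j T hT n i k)
    refine ⟨T', Sys.Steps.cons (hP _ _ _ _ (by simp) hT) ?_ h2, h3⟩
    simp only [rawSys, Prog.step, rawOf, rawTrans, h1, dif_pos, if_true]
    congr 1

end phases

def eA (K : ℕ) : WT K × ℕ → Fin 3 × ℕ := fun i => (i.1.2, i.2 * (K + 1) + i.1.1.1)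

def RA (c : Config (RS Q K)) (a : ACfg Q (WT K)) : Prop :=
  c.state = .rd a.state 0 (fun _ => false) ∧ c.head = a.head * (K + 1) ∧
    ∀ n i k, c.tape k (n * (K + 1) + i.1) = a.col n (i, k)

theorem simA (hout : A.outc = (0, 2)) :
    Sim (rawSys (rawOf A)) (aSys A) RA (eA K) ∅ (· < ω) := by
  apply Sim.ofSteps
  · rintro x2 x1 ⟨-, -, h⟩ ⟨⟨i, k⟩, n⟩
    exact h n i k
  · rintro ⟨s, hd, T⟩ ⟨q, h, col⟩ ⟨h1, h2, h3⟩ hq
    simp only at h1 h2 h3
    subst h1 h2
    replace hq : ¬ A.halt q := hq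
    set r := A.trans q (col h) with hr
    let Pz : Config (RS Q K) → Prop := fun z => ¬ (rawSys (rawOf A)).halt z ∧
      ∀ i, (rawSys (rawOf A)).cell z (eA K i) = true →
        (aSys A).cell ⟨q, h, col⟩ i = true ∨ (aSys A).cell ((aSys A).step ⟨q, h, col⟩) i = true
    have hP : ∀ s hd T' (j : ℕ), s ≠ RS.halt → (∀ n i k, T' k (n * (K + 1) + i.1) =
        if n = h ∧ i.1 < j then r.2.1 (i, k) else col n (i, k)) → Pz ⟨s, hd, T'⟩ := by
      intro s hd T' j hs hT
      refine ⟨hs, ?_⟩
      rintro ⟨⟨i, k⟩, n⟩ hc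
      replace hc : T' k (n * (K + 1) + i.1) = true := hc
      rw [hT] at hc
      show col n (i, k) = true ∨ (if n = h then r.2.1 else col n) (i, k) = true
      by_cases h4 : n = h ∧ i.1 < j
      · rw [if_pos h4] at hc
        rw [if_pos h4.1]
        exact Or.inr hc
      · rw [if_neg h4] at hc
        exact Or.inl hc
    have hP0 : ∀ s hd, s ≠ RS.halt → Pz ⟨s, hd, T⟩ :=
      fun s hd hs => hP s hd T 0 hs (by simpa using h3)
    have s1 := rd_phase A Pz T hP0 q hq (h * (K + 1)) (col h) (h3 h) K 0 (fun _ => false)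
      (by simp) (by simp)
    have s2 := bk_phase A Pz T hP0 r.1 r.2.1 r.2.2 (h * (K + 1)) K 0 (by simp)
    obtain ⟨T', s3, h4⟩ := wr_phase A Pz col h r.1 r.2.1 r.2.2 hP K 0 T (by simp)
      (by simpa using h3)
    have hP1 : ∀ s hd, s ≠ RS.halt → Pz ⟨s, hd, T'⟩ :=
      fun s hd hs => hP s hd T' (K + 1) hs (fun n i k => by rw [h4]; simp [i.2])
    have s4 := (s1.trans s2).trans s3
    refine ⟨⟨.rd r.1 0 (fun _ => false), r.2.2.app h * (K + 1), T'⟩, ⟨rfl, rfl, ?_⟩, ?_⟩
    · intro n i k
      show T' k _ = (if n = h then r.2.1 else col n) (i, k)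
      rw [h4]
      split_ifs <;> rfl
    · show (rawSys (rawOf A)).Steps Pz _ _
      cases hm : r.2.2 with
      | L =>
        rw [hm] at s4
        have s5 := lf_phase A Pz T' hP1 r.1 (2 * K + 1) (h * (K + 1) + (K + 1)) (by omega)
        have e1 : h * (K + 1) + (K + 1) - (2 * K + 1 + 1) = Mv.L.app h * (K + 1) := by
          simp only [Mv.app]
          rw [Nat.sub_mul]
          omega
        rw [e1] at s5
        exact s4.trans s5
      | S =>
        rw [hm] at s4
        have s5 := lf_phase A Pz T' hP1 r.1 K (h * (K + 1) + (K + 1)) (by omega)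
        have e1 : h * (K + 1) + (K + 1) - (K + 1) = Mv.S.app h * (K + 1) := by
          simp [Mv.app]
        rw [e1] at s5
        exact s4.trans s5
      | R =>
        rw [hm] at s4
        have e1 : h * (K + 1) + (K + 1) = Mv.R.app h * (K + 1) := by
          simp only [Mv.app]; ring
        rw [e1] at s4
        simpa [RS.goto, Mv.cnt] using s4
  · rintro ⟨s, hd, T⟩ ⟨q, h, col⟩ ⟨h1, h2, h3⟩ hq
    simp only at h1 h2 h3
    subst h1 h2
    replace hq : A.halt q := hq
    apply Sys.res_step _ (by simp [rawSys, rawOf])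
    have e1 : (rawSys (rawOf A)).step ⟨.rd q 0 (fun _ => false), h * (K + 1), T⟩ =
        ⟨.halt, h * (K + 1) + 1, T⟩ := by
      simp [rawSys, Prog.step, rawOf, rawTrans, hq, same_tape]
    rw [e1]
    have e2 := (rawSys (rawOf A)).res_halt (a := ⟨.halt, h * (K + 1) + 1, T⟩) rfl
    have e3 := h3 0 0 2
    simp only [zero_mul, Fin.val_zero, add_zero] at e3
    simpa [rawSys, aSys, hout, e3] using e2
  · intro v
    exact ⟨rfl, by simp [rawSys, aSys], fun n i k => rfl⟩

theorem presA (hout : A.outc = (0, 2)) (y : ℕ → Bool) {β : O} (hβ : IsSuccLimit β) {b : Bool}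
    (h : (aSys A).PRes ⟨A.start, 0, fun n i => if i.2 = 0 then y (n * (K + 1) + i.1.1)
      else false⟩ β b) : (rawSys (rawOf A)).PRes ((rawOf A).init y) β b := by
  refine (simA A hout).pres ?_ ?_ hβ h
  · exact ⟨rfl, by simp [Prog.init], fun n i k => rfl⟩
  · intro v
    exact ⟨rfl, by simp [rawSys, aSys], fun n i k => rfl⟩

end Pool.Agent.MP_bf5815_lc

end

section

/-! Model B: several heads; simulated by model A. -/

namespace Pool.Agent.MP_bf5815_lc

open Ordinal Order
open scoped Classical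

section relabel

variable {Q ι κ : Type} (A : AProg Q ι) (f : ι → κ)

noncomputable def AProg.relabel : AProg Q κ where
  start := A.start
  lim := A.lim
  spec := A.spec
  distinct := A.distinct
  halt := A.halt
  outc := f A.outc
  trans q c := ((A.trans q (c ∘ f)).1, Function.extend f (A.trans q (c ∘ f)).2.1 c,
    (A.trans q (c ∘ f)).2.2)

def RRel (c : ACfg Q κ) (a : ACfg Q ι) : Prop :=
  c.state = a.state ∧ c.head = a.head ∧ ∀ n i, c.col n (f i) = a.col n i

theorem simRel (hf : Function.Injective f) :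
    Sim (aSys (A.relabel f)) (aSys A) (RRel f) (fun i => (f i.1, i.2)) ∅ (· < ω) := by
  apply Sim.ofSteps
  · rintro x2 x1 ⟨-, -, h⟩ ⟨i, n⟩
    exact h n i
  · rintro ⟨s, hd, C⟩ ⟨q, h, col⟩ ⟨h1, h2, h3⟩ hq
    simp only at h1 h2 h3
    subst h1 h2
    have e1 : C hd ∘ f = col hd := funext (h3 hd)
    refine ⟨_, ?_, Sys.Steps.one ⟨hq, ?_⟩ rfl⟩
    · refine ⟨by simp [aSys, AProg.relabel, e1], by simp [aSys, AProg.relabel, e1], ?_⟩
      intro n i
      simp only [aSys, AProg.relabel, e1]
      split_ifs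
      · rw [hf.extend_apply]
      · exact h3 n i
    · rintro ⟨i, n⟩ hc
      left
      exact (h3 n i).symm.trans hc
  · rintro ⟨s, hd, C⟩ ⟨q, h, col⟩ ⟨h1, h2, h3⟩ hq
    simp only at h1 h2 h3
    subst h1 h2
    have := (aSys (A.relabel f)).res_halt (a := ⟨s, hd, C⟩) hq
    simpa [aSys, AProg.relabel, h3] using this
  · intro v
    exact ⟨rfl, rfl, fun n i => rfl⟩

theorem presRel (hf : Function.Injective f) (C : ℕ → κ → Bool) {β : O} (hβ : IsSuccLimit β)
    {b : Bool} (h : (aSys A).PRes ⟨A.start, 0, fun n i => C n (f i)⟩ β b) :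
    (aSys (A.relabel f)).PRes ⟨(A.relabel f).start, 0, C⟩ β b := by
  refine (simRel A f hf).pres ?_ ?_ hβ h
  · exact ⟨rfl, rfl, fun n i => rfl⟩
  · intro v
    exact ⟨rfl, rfl, fun n i => rfl⟩

end relabel

structure BProg (Q H ι : Type) where
  start : Q
  lim : Q
  spec : Q
  distinct : [start, lim, spec].Nodup
  halt : Q → Prop
  outc : ι
  sel : Q → H
  trans : Q → (ι → Bool) → Bool → Q × (ι → Bool) × Mv

structure BCfg (Q H ι : Type) where
  state : Q
  head : H → ℕ
  col : ℕ → ι → Bool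

noncomputable def bSys {Q H ι : Type} (B : BProg Q H ι) : Sys (BCfg Q H ι) (ι × ℕ) where
  cell c i := c.col i.2 i.1
  step c :=
    let p := c.head (B.sel c.state)
    let r := B.trans c.state (c.col p) (decide (p = 0))
    ⟨r.1, fun h => if h = B.sel c.state then r.2.2.app p else c.head h,
      fun n => if n = p then r.2.1 else c.col n⟩
  lim v := ⟨B.lim, fun _ => 0, fun n i => v (i, n)⟩
  cell_lim _ := rfl
  halt c := B.halt c.state
  out c := c.col 0 B.outc
  ovr c := { c with state := B.spec }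

inductive AS (Q H : Type)
  | init (q : Q)
  | seek (q : Q) (z : Bool)
  | place (q : Q) (h : H) (m : Mv)
  | back (q : Q)

instance {Q H : Type} [Finite Q] [Finite H] : Finite (AS Q H) :=
  Finite.of_equiv _ (proxy_equiv% (AS Q H))

variable {Q H ι : Type} (B : BProg Q H ι)

noncomputable def aTrans : AS Q H → (ι ⊕ Option H → Bool) → AS Q H × (ι ⊕ Option H → Bool) × Mv
  | .init q, c => (.seek q true, Sum.elim (c ∘ .inl) (fun _ => true), .S)
  | .seek q z, c =>
    if c (.inr (some (B.sel q))) = true then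
      let r := B.trans q (c ∘ .inl) z
      (.place r.1 (B.sel q) r.2.2, Sum.elim r.2.1 (fun o => o.elim z
        (fun h => if h = B.sel q ∧ r.2.2 = .R then false else c (.inr (some h)))), r.2.2)
    else (.seek q false, Sum.elim (c ∘ .inl) (fun o => o.elim z (fun h => c (.inr (some h)))), .R)
  | .place q h m, c => (.back q, Sum.elim (c ∘ .inl) (fun o => o.elim
      (if m = .R then false else c (.inr none))
      (fun h' => if h' = h then true else c (.inr (some h')))), .S)
  | .back q, c => if c (.inr none) = true then (.seek q true, c, .S) else (.back q, c, .L)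

def aHalt : AS Q H → Prop
  | .init q => B.halt q
  | .seek q z => z = true ∧ B.halt q
  | _ => False

noncomputable def aOf : AProg (AS Q H) (ι ⊕ Option H) where
  start := .init B.start
  lim := .init B.lim
  spec := .init B.spec
  distinct := by
    have := B.distinct
    simp only [List.nodup_cons, List.mem_cons, List.not_mem_nil, or_false, not_or,
      List.nodup_nil, and_true, not_false_iff] at this ⊢
    simp [this]
  halt := aHalt B
  outc := .inl B.outc
  trans := aTrans B

def Data (C : ℕ → ι ⊕ Option H → Bool) (col : ℕ → ι → Bool) : Prop :=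
  ∀ n i, C n (.inl i) = col n i

def Mark (C : ℕ → ι ⊕ Option H → Bool) (h : H) (p : ℕ) : Prop :=
  C p (.inr (some h)) = true ∧ ∀ n, n < p → C n (.inr (some h)) = false

def Bd (C : ℕ → ι ⊕ Option H → Bool) (p : ℕ) : Prop :=
  ∀ n, n < p → C n (.inr none) = decide (n = 0)

theorem same_col {κ : Type} (C : ℕ → κ → Bool) (h : ℕ) :
    (fun n => if n = h then C h else C n) = C := by
  funext n
  split_ifs with hn
  · rw [hn]
  · rfl

section phases

variable (Pz : ACfg (AS Q H) (ι ⊕ Option H) → Prop)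

theorem back_phase (C : ℕ → ι ⊕ Option H → Bool) (q : Q) (hP : ∀ n, Pz ⟨.back q, n, C⟩) :
    ∀ n, Bd C (n + 1) → (aSys (aOf B)).Steps Pz ⟨.back q, n, C⟩ ⟨.seek q true, 0, C⟩ := by
  intro n
  induction n with
  | zero =>
    intro hb
    apply Sys.Steps.one (hP _)
    have := hb 0 (by omega)
    simp [aSys, aOf, aTrans, this, same_col, Mv.app]
  | succ n ih =>
    intro hb
    refine Sys.Steps.cons (hP _) ?_ (ih (fun m hm => hb m (by omega)))
    have := hb (n + 1) (by omega)
    simp only [aSys, aOf, aTrans, this]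
    simp [same_col, Mv.app]

theorem seek_phase (col : ℕ → ι → Bool) (hd : H → ℕ) (q : Q)
    (hP : ∀ z n C, Data C col → Pz ⟨.seek q z, n, C⟩) :
    ∀ d n C, n + d = hd (B.sel q) → Data C col → (∀ h, Mark C h (hd h)) → Bd C n →
      let p := hd (B.sel q)
      let r := B.trans q (col p) (decide (p = 0))
      ∃ C', (aSys (aOf B)).Steps Pz ⟨.seek q (decide (n = 0)), n, C⟩
          ⟨.place r.1 (B.sel q) r.2.2, r.2.2.app p, C'⟩ ∧
        Data C' (fun n => if n = p then r.2.1 else col n) ∧
        (∀ h, h ≠ B.sel q → Mark C' h (hd h)) ∧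
        (∀ n, n < r.2.2.app p → C' n (.inr (some (B.sel q))) = false) ∧ Bd C' (p + 1) := by
  intro d
  induction d with
  | zero =>
    intro n C hn hD hM hb p r
    have hnp : n = p := by simpa using hn
    subst hnp
    have e1 : C p ∘ Sum.inl = col p := funext (hD p)
    refine ⟨fun n => if n = p then Sum.elim r.2.1 (fun o => o.elim (decide (p = 0))
        (fun h => if h = B.sel q ∧ r.2.2 = .R then false else C p (.inr (some h)))) else C n,
      Sys.Steps.one (hP _ _ _ hD) ?_, ?_, ?_, ?_, ?_⟩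
    · have := (hM (B.sel q)).1
      simp only [aSys, aOf, aTrans]
      rw [if_pos this, e1]
    · intro n i
      simp only
      split_ifs
      · rfl
      · exact hD n i
    · intro h hh
      refine ⟨?_, fun n hn => ?_⟩
      · simp only
        split_ifs with h1
        · simp only [Sum.elim_inr, Option.elim, hh, false_and, if_false]
          rw [← h1]
          exact (hM h).1
        · exact (hM h).1
      · simp only
        split_ifs with h1
        · simp only [Sum.elim_inr, Option.elim, hh, false_and, if_false]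
          rw [← h1]
          exact (hM h).2 n hn
        · exact (hM h).2 n hn
    · intro n hn
      simp only
      split_ifs with h1
      · subst h1
        have : r.2.2 = .R := by
          revert hn
          cases r.2.2 <;> simp [Mv.app]
        simp [this]
      · apply (hM (B.sel q)).2
        revert hn
        cases r.2.2 <;> simp only [Mv.app] <;> omega
    · intro n hn
      simp only
      split_ifs with h1
      · subst h1; rfl
      · exact hb n (by omega)
  | succ d ih =>
    intro n C hn hD hM hb p r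
    have h1 : C n (.inr (some (B.sel q))) = false := (hM (B.sel q)).2 n (by omega)
    obtain ⟨C', h2, h3⟩ := ih (n + 1) (fun m => if m = n then Sum.elim (C n ∘ .inl)
      (fun o => o.elim (decide (n = 0)) (fun h => C n (.inr (some h)))) else C m) (by omega)
      (by
        intro m i
        simp only
        split_ifs with h
        · subst h; exact hD m i
        · exact hD m i)
      (by
        intro h
        refine ⟨?_, fun m hm => ?_⟩
        · simp only
          split_ifs with h1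
          · rw [← h1]; exact (hM h).1
          · exact (hM h).1
        · simp only
          split_ifs with h1
          · subst h1; exact (hM h).2 m hm
          · exact (hM h).2 m hm)
      (by
        intro m hm
        simp only
        split_ifs with h1
        · subst h1; rfl
        · exact hb m (by omega))
    refine ⟨C', Sys.Steps.cons (hP _ _ _ hD) ?_ h2, h3⟩
    simp [aSys, aOf, aTrans, h1, Mv.app]

end phases

def RB (a : ACfg (AS Q H) (ι ⊕ Option H)) (b : BCfg Q H ι) : Prop :=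
  a.head = 0 ∧ Data a.col b.col ∧ ((a.state = .init b.state ∧ ∀ h, b.head h = 0) ∨
    (a.state = .seek b.state true ∧ ∀ h, Mark a.col h (b.head h)))

theorem simB : Sim (aSys (aOf B)) (bSys B) RB (fun i => (.inl i.1, i.2)) ∅ (· < ω) := by
  apply Sim.ofSteps
  · rintro x2 x1 ⟨-, h, -⟩ ⟨i, n⟩
    exact h n i
  · rintro ⟨s, p0, C⟩ ⟨q, hd, col⟩ ⟨h1, hD, h3⟩ hq
    simp only at h1 hD h3
    subst h1
    replace hq : ¬ B.halt q := hq
    set p := hd (B.sel q) with hp
    set r := B.trans q (col p) (decide (p = 0)) with hr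
    let Pz : ACfg (AS Q H) (ι ⊕ Option H) → Prop := fun z => ¬ (aSys (aOf B)).halt z ∧
      ∀ i : ι × ℕ, (aSys (aOf B)).cell z (.inl i.1, i.2) = true →
        (bSys B).cell ⟨q, hd, col⟩ i = true ∨ (bSys B).cell ((bSys B).step ⟨q, hd, col⟩) i = true
    have hP1 : ∀ s n C, ¬ aHalt B s → Data C col → Pz ⟨s, n, C⟩ := by
      intro s n C hs hC
      exact ⟨hs, fun i hi => Or.inl ((hC _ _).symm.trans hi)⟩
    have hP2 : ∀ s n C, ¬ aHalt B s → Data C (fun n => if n = p then r.2.1 else col n) →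
        Pz ⟨s, n, C⟩ := by
      intro s n C hs hC
      exact ⟨hs, fun i hi => Or.inr ((hC _ _).symm.trans hi)⟩
    have main : ∀ C, Data C col → (∀ h, Mark C h (hd h)) → ∃ y, RB y ((bSys B).step ⟨q, hd, col⟩) ∧
        (aSys (aOf B)).Steps Pz ⟨.seek q true, 0, C⟩ y := by
      intro C hD hM
      obtain ⟨C', s1, hD', hM1, hM2, hb⟩ := seek_phase B Pz col hd q
        (fun z n C hC => hP1 _ _ _ (by simp [aHalt, hq]) hC) p 0 C (by simp [hp]) hD hM
        (fun n hn => absurd hn (by simp))
      rw [← hp, ← hr] at s1 hD' hM2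
      rw [← hp] at hb
      let C'' : ℕ → ι ⊕ Option H → Bool := fun n => if n = r.2.2.app p then
        Sum.elim (C' (r.2.2.app p) ∘ .inl) (fun o => o.elim
        (if r.2.2 = .R then false else C' (r.2.2.app p) (.inr none))
        (fun h' => if h' = B.sel q then true else C' (r.2.2.app p) (.inr (some h')))) else C' n
      have hD'' : Data C'' (fun n => if n = p then r.2.1 else col n) := by
        intro n i
        rw [← hD' n i]
        simp only [C'']
        by_cases h : n = r.2.2.app p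
        · rw [if_pos h, h]; rfl
        · rw [if_neg h]
      have hb'' : Bd C'' (r.2.2.app p + 1) := by
        intro n hn
        simp only [C'']
        by_cases h : n = r.2.2.app p
        · rw [if_pos h]
          by_cases h2 : r.2.2 = .R
          · have : n ≠ 0 := by rw [h, h2]; simp [Mv.app]
            simp [h2, this]
          · simp only [Sum.elim_inr, Option.elim, h2, if_false]
            rw [← h]
            apply hb
            revert hn h2
            cases r.2.2 <;> simp only [Mv.app] <;> simp <;> omega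
        · rw [if_neg h]
          apply hb
          revert hn h
          cases r.2.2 <;> simp only [Mv.app] <;> omega
      have s2 : (aSys (aOf B)).step ⟨.place r.1 (B.sel q) r.2.2, r.2.2.app p, C'⟩ =
          ⟨.back r.1, r.2.2.app p, C''⟩ := rfl
      have s3 := back_phase B Pz C'' r.1 (fun n => hP2 _ _ _ (by simp [aHalt]) hD'') _ hb''
      refine ⟨⟨.seek r.1 true, 0, C''⟩, ⟨rfl, hD'', Or.inr ⟨rfl, ?_⟩⟩,
        s1.trans (Sys.Steps.cons (hP2 _ _ _ (by simp [aHalt]) hD') s2 s3)⟩
      intro h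
      show Mark C'' h (if h = B.sel q then r.2.2.app p else hd h)
      by_cases hh : h = B.sel q
      · rw [if_pos hh, hh]
        refine ⟨by simp [C''], fun n hn => ?_⟩
        simp only [C'', hn.ne, if_false]
        exact hM2 n hn
      · rw [if_neg hh]
        have e2 : ∀ n, C'' n (.inr (some h)) = C' n (.inr (some h)) := by
          intro n
          simp only [C'']
          by_cases h1 : n = r.2.2.app p
          · rw [if_pos h1, h1]
            simp [hh]
          · rw [if_neg h1]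
        exact ⟨by rw [e2]; exact (hM1 h hh).1, fun n hn => by rw [e2]; exact (hM1 h hh).2 n hn⟩
    rcases h3 with ⟨h3, h4⟩ | ⟨h3, h4⟩
    · subst h3
      obtain ⟨y, h5, h6⟩ := main (fun n => if n = 0 then Sum.elim (C 0 ∘ .inl) (fun _ => true)
        else C n) (by
          intro n i
          simp only
          split_ifs with h
          · subst h; exact hD 0 i
          · exact hD n i)
        (fun h => ⟨by simp [h4], fun n hn => by simp [h4] at hn⟩)
      exact ⟨y, h5, Sys.Steps.cons (hP1 _ _ _ hq hD) rfl h6⟩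
    · subst h3
      exact main C hD h4
  · rintro ⟨s, p0, C⟩ ⟨q, hd, col⟩ ⟨h1, hD, h3⟩ hq
    simp only at h1 hD h3
    replace hq : B.halt q := hq
    have h5 : (aSys (aOf B)).halt ⟨s, p0, C⟩ := by
      rcases h3 with ⟨h3, h4⟩ | ⟨h3, h4⟩ <;> subst h3
      · exact hq
      · exact ⟨rfl, hq⟩
    have := (aSys (aOf B)).res_halt h5
    have e1 := hD 0 B.outc
    simpa [aSys, aOf, bSys, e1] using this
  · intro v
    exact ⟨rfl, fun n i => rfl, Or.inl ⟨rfl, fun _ => rfl⟩⟩

theorem presB (C : ℕ → ι ⊕ Option H → Bool) {β : O} (hβ : IsSuccLimit β)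
    {b : Bool} (h : (bSys B).PRes ⟨B.start, fun _ => 0, fun n i => C n (.inl i)⟩ β b) :
    (aSys (aOf B)).PRes ⟨(aOf B).start, 0, C⟩ β b := by
  refine (simB B).pres ?_ ?_ hβ h
  · exact ⟨rfl, fun n i => rfl, Or.inl ⟨rfl, fun _ => rfl⟩⟩
  · intro v
    exact ⟨rfl, fun n i => rfl, Or.inl ⟨rfl, fun _ => rfl⟩⟩

end Pool.Agent.MP_bf5815_lc

end

section

/-! Machines that rewrite the whole tape in one big step; simulated by model B, one big step
taking `ω * 3` steps. -/

namespace Pool.Agent.MP_bf5815_lc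

open Ordinal Order
open scoped Classical

theorem Sys.omega_phase' {X ι : Type} {S : Sys X ι} (I P : ℕ → X → Prop) (P0 : X → Prop)
    (hI : ∀ n x, I n x → ∃ y, S.Steps (P n) x y ∧ I (n + 1) y) (hP : ∀ n z, P n z → P0 z)
    {x : X} (hx : P0 x) (h0 : I 0 (S.step x)) :
    (∀ s, s < ω → P0 (S.run x s)) ∧
      ∀ i b N, (∀ n, N ≤ n → ∀ z, P n z → S.cell z i = b) → S.cell (S.run x ω) i = b := by
  obtain ⟨h1, h2⟩ := Sys.omega_phase I P hI h0
  constructor
  · intro s hs
    rcases eq_or_ne s 0 with rfl | h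
    · simpa using hx
    · obtain ⟨d, rfl⟩ := exists_add_of_le (one_le_iff_ne_zero.2 h)
      rw [S.run_add, S.run_one]
      obtain ⟨n, hn⟩ := h1 d (lt_of_le_of_lt le_add_self hs)
      exact hP n _ hn
  · rw [← one_add_omega0, S.run_add, S.run_one]
    exact h2

def pr : ℕ → ℕ × ℕ
  | 0 => (0, 0)
  | j + 1 => if (pr j).2 = 0 then (0, (pr j).1 + 1) else ((pr j).1 + 1, (pr j).2 - 1)

theorem pr_add (k : ℕ) : ∀ j z w, pr j = (z, w + k) → pr (j + k) = (z + k, w) := by
  induction k with
  | zero => intro j z w h; exact h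
  | succ k ih =>
    intro j z w h
    have := ih j z (w + 1) (by rw [h]; congr 1; omega)
    rw [← add_assoc, pr, this]
    simp [add_assoc]

theorem pr_surj (z w : ℕ) : ∃ j, pr j = (z, w) := by
  have h1 : ∀ s, ∃ j, pr j = (0, s) := by
    intro s
    induction s with
    | zero => exact ⟨0, rfl⟩
    | succ s ih =>
      obtain ⟨j, hj⟩ := ih
      have := pr_add s j 0 0 (by simpa using hj)
      exact ⟨j + s + 1, by rw [pr, this]; simp⟩
  obtain ⟨j, hj⟩ := h1 (w + z)
  exact ⟨j + z, by simpa using pr_add z j 0 w hj⟩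

def res (M n : ℕ) : Fin (M + 1) := ⟨n % (M + 1), Nat.mod_lt _ (Nat.succ_pos M)⟩

theorem res_succ (M n : ℕ) : res M (n + 1) = res M n + 1 := by
  apply Fin.ext
  simp [res, Fin.val_add]

theorem div_succ_last {M n : ℕ} (h : res M n = Fin.last M) :
    (n + 1) / (M + 1) = n / (M + 1) + 1 := by
  have h1 : n % (M + 1) = M := congrArg Fin.val h
  rw [Nat.succ_div, if_pos]
  have := Nat.div_add_mod n (M + 1)
  exact ⟨n / (M + 1) + 1, by rw [mul_add, mul_one]; omega⟩

theorem div_succ_nlast {M n : ℕ} (h : res M n ≠ Fin.last M) :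
    (n + 1) / (M + 1) = n / (M + 1) := by
  rw [Nat.succ_div, if_neg, add_zero]
  intro hd
  apply h
  apply Fin.ext
  simp only [res, Fin.val_last]
  obtain ⟨c, hc⟩ := hd
  cases c with
  | zero => omega
  | succ c =>
    have : n = M + (M + 1) * c := by rw [mul_add, mul_one] at hc; omega
    rw [this, Nat.add_mul_mod_self_left, Nat.mod_eq_of_lt (by omega)]

structure Loc (T : Type) (M : ℕ) where
  r : Fin (M + 1)
  c0 : T → Bool
  prev : T → Bool
  p0 : Bool
  cur : T → Bool
  u0 : Bool
  next : T → Bool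
  cz : T → Bool
  z0 : Bool
  cw : T → Bool

set_option synthInstance.maxSize 100000 in
instance {T : Type} [Finite T] (M : ℕ) : Finite (Loc T M) :=
  Finite.of_equiv _ (proxy_equiv% (Loc T M))

structure MProg (T G : Type) (M : ℕ) where
  ini : Bool → Bool → T → Bool
  contrib : (T → Bool) → G → Bool
  upd : (G → Bool) → Loc T M → T → Bool
  stop : (T → Bool) → Prop
  out : (T → Bool) → Bool
  jump : (T → Bool) → T → Bool

def loc {T : Type} (M : ℕ) (m : ℕ → T → Bool) (n : ℕ) : Loc T M :=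
  ⟨res M n, m 0, m (n - 1), decide (n - 1 = 0), m n, decide (n = 0), m (n + 1),
    m (pr (n / (M + 1))).1, decide ((pr (n / (M + 1))).1 = 0), m (pr (n / (M + 1))).2⟩

variable {T G : Type} {M : ℕ} (D : MProg T G M)

noncomputable def MProg.acc (m : ℕ → T → Bool) (g : G) : Bool :=
  decide (∃ n, D.contrib (m n) g = true)

noncomputable def mSys : Sys (ℕ → T → Bool) (T × ℕ) where
  cell m i := m i.2 i.1
  step m n := D.upd (D.acc m) (loc M m n)
  lim v n t := v (t, n)
  cell_lim _ := rfl
  halt m := D.stop (m 0)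
  out m := D.out (m 0)
  ovr m n := if n = 0 then D.jump (m 0) else m n

inductive BT (K : ℕ) (T G : Type)
  | inp (j : Fin (K + 1))
  | outc
  | old (t : T)
  | new (t : T)
  | tmp (g : G)
  | psi
  | d1

inductive HH | main | nx | ha | hb
  deriving Fintype

inductive BS (K : ℕ) (T G : Type) (M : ℕ)
  | i1 (j : Fin (K + 1))
  | i2 (j : Fin (K + 1)) (b : Bool)
  | lim
  | spec
  | halt
  | a1 (acc : G → Bool)
  | a2 (acc : G → Bool)
  | b1 (acc : G → Bool) (l : Loc T M) (par : Bool)
  | b2 (acc : G → Bool) (l : Loc T M) (par : Bool)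
  | b3 (acc : G → Bool) (l : Loc T M) (par wz : Bool)
  | b4 (acc : G → Bool) (l : Loc T M) (par wz : Bool)
  | cp

set_option synthInstance.maxSize 2048 in
instance {K : ℕ} [Finite T] [Finite G] : Finite (BS K T G M) :=
  Finite.of_equiv _ (proxy_equiv% (BS K T G M))

variable {K : ℕ}

def BT.wr (c : BT K T G → Bool) (o nw : T → Bool) (tm : G → Bool) (ps d out : Bool) :
    BT K T G → Bool
  | .inp j => c (.inp j)
  | .outc => out
  | .old t => o t
  | .new t => nw t
  | .tmp g => tm g
  | .psi => ps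
  | .d1 => d

def bSel : BS K T G M → HH
  | .i1 _ => .nx
  | .i2 _ _ => .main
  | .lim => .nx
  | .spec => .nx
  | .halt => .nx
  | .a1 _ => .main
  | .a2 _ => .ha
  | .b1 _ _ _ => .nx
  | .b2 _ _ par => if par then .ha else .hb
  | .b3 _ _ par _ => if par then .hb else .ha
  | .b4 _ _ _ _ => .main
  | .cp => .main

noncomputable def bTrans : BS K T G M → (BT K T G → Bool) → Bool →
    BS K T G M × (BT K T G → Bool) × Mv
  | .i1 j, c, _ => (.i2 j (c (.inp j)), c, if j = Fin.last K then .R else .S)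
  | .i2 j b, c, z => (.i1 (j + 1),
      BT.wr c (D.ini z b) (c ∘ .new) (c ∘ .tmp) true (c .d1) (c .outc), .R)
  | .lim, c, _ =>
    if c .psi = true then
      if D.stop (c ∘ .old) then
        (.halt, BT.wr c (c ∘ .old) (c ∘ .new) (c ∘ .tmp) (c .psi) (c .d1) (D.out (c ∘ .old)), .S)
      else (.a1 (fun _ => false),
        BT.wr c (c ∘ .old) (c ∘ .new) (c ∘ .tmp) false false (c .outc), .S)
    else if c .d1 = true then (.cp, c, .S)
    else (.b1 (c ∘ .tmp) ⟨0, c ∘ .old, c ∘ .old, true, c ∘ .old, true, c ∘ .old, c ∘ .old, true,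
        c ∘ .old⟩ false,
      BT.wr c (c ∘ .old) (c ∘ .new) (c ∘ .tmp) (c .psi) true (c .outc), .R)
  | .spec, c, _ => (.lim,
      BT.wr c (D.jump (c ∘ .old)) (c ∘ .new) (c ∘ .tmp) (c .psi) (c .d1) (c .outc), .S)
  | .halt, c, _ => (.halt, c, .S)
  | .a1 acc, c, _ => (.a2 (fun g => acc g || D.contrib (c ∘ .old) g), c, .R)
  | .a2 acc, c, _ => (.a1 acc,
      BT.wr c (c ∘ .old) (c ∘ .new) acc (c .psi) (c .d1) (c .outc), .S)
  | .b1 acc l par, c, _ => (.b2 acc { l with next := c ∘ .old } par, c, .R)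
  | .b2 acc l par, c, z => (.b3 acc { l with cw := c ∘ .old } par z, c,
      if l.r = Fin.last M ∧ z = false then .L else .S)
  | .b3 acc l par wz, c, z => (.b4 acc { l with cz := c ∘ .old, z0 := z } par wz, c,
      if l.r = Fin.last M then .R else .S)
  | .b4 acc l par wz, c, z => (.b1 acc { l with r := l.r + 1, prev := c ∘ .old, p0 := z }
      (if l.r = Fin.last M ∧ wz = true then !par else par),
      BT.wr c (c ∘ .old) (D.upd acc { l with cur := c ∘ .old, u0 := z }) (c ∘ .tmp) (c .psi)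
        (c .d1) (c .outc), .R)
  | .cp, c, _ => (.cp,
      BT.wr c (c ∘ .new) (c ∘ .new) (c ∘ .tmp) true (c .d1) (c .outc), .R)

noncomputable def bOf (K : ℕ) : BProg (BS K T G M) HH (BT K T G) where
  start := .i1 0
  lim := .lim
  spec := .spec
  distinct := by simp
  halt s := s = .halt
  outc := .outc
  sel := bSel
  trans := bTrans D

abbrev BC (K : ℕ) (T G : Type) (M : ℕ) := BCfg (BS K T G M) HH (BT K T G)

def Old (z : BC K T G M) (m : ℕ → T → Bool) : Prop := ∀ n t, z.col n (.old t) = m n t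

theorem phase0 (x : BC K T G M) (m : ℕ → T → Bool) (hs : x.state = .lim) (hh : ∀ h, x.head h = 0)
    (hp : x.col 0 .psi = true) (ho : Old x m) (hstop : ¬ D.stop (m 0)) :
    (∀ s : O, s < ω → ((bSys (bOf D K)).run x s).state ≠ .halt ∧
      Old ((bSys (bOf D K)).run x s) m) ∧
    Old ((bSys (bOf D K)).run x ω) m ∧ ((bSys (bOf D K)).run x ω).col 0 .psi = false ∧
      ((bSys (bOf D K)).run x ω).col 0 .d1 = false ∧
      ∀ g, ((bSys (bOf D K)).run x ω).col 0 (.tmp g) = D.acc m g := by
  obtain ⟨s, hd, C⟩ := x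
  simp only at hs hh hp
  subst hs
  let P : ℕ → BC K T G M → Prop := fun n z => z.state ≠ .halt ∧ Old z m ∧ z.col 0 .psi = false ∧
    z.col 0 .d1 = false ∧
    (0 < n → ∀ g, z.col 0 (.tmp g) = decide (∃ k, k < n ∧ D.contrib (m k) g = true))
  let I : ℕ → BC K T G M → Prop := fun n z =>
    z.state = .a1 (fun g => decide (∃ k, k < n ∧ D.contrib (m k) g = true)) ∧
      z.head .main = n ∧ z.head .ha = 0 ∧ P n z
  have e0 : C 0 ∘ BT.old = m 0 := funext (ho 0)
  obtain ⟨h1, h2⟩ := Sys.omega_phase' (S := bSys (bOf D K)) I P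
    (fun z => z.state ≠ .halt ∧ Old z m) (by
      rintro n ⟨s, hd, C⟩ ⟨a1, a2, a3, a4, a5, a6, a7, a8⟩
      simp only at a1 a2 a3 a4 a5 a6 a7 a8
      subst a1
      have e1 : C n ∘ BT.old = m n := funext (a5 n)
      have e2 : (fun g => decide (∃ k, k < n ∧ D.contrib (m k) g = true) || D.contrib (m n) g) =
          (fun g => decide (∃ k, k < n + 1 ∧ D.contrib (m k) g = true)) := by
        funext g
        rw [Bool.eq_iff_iff]
        simp only [Bool.or_eq_true, decide_eq_true_eq]
        constructor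
        · rintro (⟨k, h1, h2⟩ | h)
          · exact ⟨k, by omega, h2⟩
          · exact ⟨n, by omega, h⟩
        · rintro ⟨k, h1, h2⟩
          rcases Nat.lt_succ_iff_lt_or_eq.1 h1 with h | rfl
          · exact Or.inl ⟨k, h, h2⟩
          · exact Or.inr h2
      refine ⟨_, Sys.Steps.cons ⟨a4, a5, a6, a7, a8⟩ (y := ⟨.a2 (fun g => decide (∃ k, k < n + 1 ∧
        D.contrib (m k) g = true)), fun h => if h = .main then n + 1 else hd h, C⟩) ?_
        (Sys.Steps.one ⟨by simp, a5, a6, a7, a8⟩ rfl), ?_⟩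
      · simp only [bSys, bOf, bSel, bTrans, a2, e1, e2, same_col, Mv.app]
      · simp only [I, P, Old, bSys, bOf, bSel, bTrans, Mv.app]
        simp only [reduceCtorEq, if_false, if_true, a3, ne_eq, not_false_iff, true_and]
        refine ⟨fun k t => ?_, a6, a7, fun _ g => rfl⟩
        split_ifs with h
        · subst h; exact a5 0 t
        · exact a5 k t)
    (fun n z hz => ⟨hz.1, hz.2.1⟩) (x := ⟨.lim, hd, C⟩) ⟨by simp, ho⟩ (by
      simp only [I, P, Old, bSys, bOf, bSel, bTrans, hh, hp, e0, hstop, Mv.app, if_true, if_false]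
      refine ⟨by simp, by simp, by simp, by simp, fun k t => ?_, rfl, rfl, by simp⟩
      split_ifs with h
      · subst h; rfl
      · exact ho k t)
  refine ⟨h1, fun n t => h2 (.old t, n) _ 0 (fun _ _ z hz => hz.2.1 n t),
    h2 (.psi, 0) _ 0 (fun _ _ z hz => hz.2.2.1), h2 (.d1, 0) _ 0 (fun _ _ z hz => hz.2.2.2.1),
    fun g => ?_⟩
  by_cases hg : ∃ k, D.contrib (m k) g = true
  · obtain ⟨k, hk⟩ := hg
    apply h2 (.tmp g, 0) _ (k + 1)
    intro n hn z hz
    refine (hz.2.2.2.2 (by omega) g).trans ?_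
    rw [MProg.acc, decide_eq_true ⟨k, by omega, hk⟩, decide_eq_true ⟨k, hk⟩]
  · apply h2 (.tmp g, 0) _ 1
    intro n hn z hz
    refine (hz.2.2.2.2 (by omega) g).trans ?_
    rw [MProg.acc, decide_eq_false hg, decide_eq_false (fun ⟨k, _, hk⟩ => hg ⟨k, hk⟩)]

end Pool.Agent.MP_bf5815_lc

end

section

namespace Pool.Agent.MP_bf5815_lc

open Ordinal Order
open scoped Classical

variable {T G : Type} {M : ℕ} (D : MProg T G M) {K : ℕ}

theorem phase1 (x : BC K T G M) (m : ℕ → T → Bool) (hs : x.state = .lim) (hh : ∀ h, x.head h = 0)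
    (hp : x.col 0 .psi = false) (hd1 : x.col 0 .d1 = false) (ho : Old x m)
    (ht : ∀ g, x.col 0 (.tmp g) = D.acc m g) :
    (∀ s : O, s < ω → ((bSys (bOf D K)).run x s).state ≠ .halt ∧
      Old ((bSys (bOf D K)).run x s) m) ∧
    Old ((bSys (bOf D K)).run x ω) m ∧ ((bSys (bOf D K)).run x ω).col 0 .psi = false ∧
      ((bSys (bOf D K)).run x ω).col 0 .d1 = true ∧
      ∀ n t, ((bSys (bOf D K)).run x ω).col n (.new t) = (mSys D).step m n t := by
  obtain ⟨s, hd, C⟩ := x
  simp only at hs hh hp hd1 ht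
  subst hs
  let P : ℕ → BC K T G M → Prop := fun n z => z.state ≠ .halt ∧ Old z m ∧ z.col 0 .psi = false ∧
    z.col 0 .d1 = true ∧ ∀ k, k < n → ∀ t, z.col k (.new t) = (mSys D).step m k t
  let I : ℕ → BC K T G M → Prop := fun n z => ∃ l par,
    z.state = .b1 (D.acc m) l par ∧ l.r = res M n ∧ l.c0 = m 0 ∧ l.prev = m (n - 1) ∧
      l.p0 = decide (n - 1 = 0) ∧ z.head .main = n ∧ z.head .nx = n + 1 ∧
      z.head (if par then .ha else .hb) = (pr (n / (M + 1))).2 ∧
      z.head (if par then .hb else .ha) = (pr (n / (M + 1))).1 ∧ P n z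
  have e0 : C 0 ∘ BT.old = m 0 := funext (ho 0)
  have e00 : C 0 ∘ BT.tmp = D.acc m := funext ht
  obtain ⟨h1, h2⟩ := Sys.omega_phase' (S := bSys (bOf D K)) I P
    (fun z => z.state ≠ .halt ∧ Old z m) (by
      rintro n ⟨s, hd, C⟩ ⟨l, par, a1, b1, b2, b3, b4, a2, a3, a9, a10, a4, a5, a6, a7, a8⟩
      simp only at a1 a2 a3 a4 a5 a6 a7 a8 a9 a10
      subst a1
      have e1 : ∀ k, C k ∘ BT.old = m k := fun k => funext (a5 k)
      set z := (pr (n / (M + 1))).1 with hz
      set w := (pr (n / (M + 1))).2 with hw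
      let hd1 : HH → ℕ := fun h => if h = .nx then n + 2 else hd h
      let hd2 : HH → ℕ := fun h => if h = (if par then .ha else .hb) then
        (if l.r = Fin.last M ∧ decide (w = 0) = false then Mv.L else Mv.S).app w else hd1 h
      let hd3 : HH → ℕ := fun h => if h = (if par then .hb else .ha) then
        (if l.r = Fin.last M then Mv.R else Mv.S).app z else hd2 h
      have s1 : (bSys (bOf D K)).step ⟨.b1 (D.acc m) l par, hd, C⟩ =
          ⟨.b2 (D.acc m) { l with next := m (n + 1) } par, hd1, C⟩ := by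
        simp only [bSys, bOf, bSel, bTrans, a3, e1, same_col, Mv.app, hd1]
      have s2 : (bSys (bOf D K)).step ⟨.b2 (D.acc m) { l with next := m (n + 1) } par, hd1, C⟩ =
          ⟨.b3 (D.acc m) { l with next := m (n + 1), cw := m w } par (decide (w = 0)), hd2, C⟩ := by
        have : hd1 (if par then .ha else .hb) = w := by
          rw [← a9]; cases par <;> simp [hd1]
        simp only [bSys, bOf, bSel, bTrans, this, e1, hd2]
        congr 1
        exact same_col _ _
      have s3 : (bSys (bOf D K)).step ⟨.b3 (D.acc m) { l with next := m (n + 1), cw := m w } par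
          (decide (w = 0)), hd2, C⟩ =
          ⟨.b4 (D.acc m) { l with next := m (n + 1), cw := m w, cz := m z, z0 := decide (z = 0) }
            par (decide (w = 0)), hd3, C⟩ := by
        have : hd2 (if par then .hb else .ha) = z := by
          rw [← a10]; cases par <;> simp [hd1, hd2]
        simp only [bSys, bOf, bSel, bTrans, this, e1, hd3]
        congr 1
        exact same_col _ _
      have e2 : hd3 .main = n := by
        rw [← a2]; cases par <;> simp [hd1, hd2, hd3]
      have e3 : (⟨l.r, l.c0, l.prev, l.p0, m n, decide (n = 0), m (n + 1), m z, decide (z = 0),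
          m w⟩ : Loc T M) = loc M m n := by
        rw [b1, b2, b3, b4]; rfl
      refine ⟨_, Sys.Steps.cons ⟨a4, a5, a6, a7, a8⟩ s1 (Sys.Steps.cons ⟨by simp, a5, a6, a7, a8⟩ s2
        (Sys.Steps.cons ⟨by simp, a5, a6, a7, a8⟩ s3
        (Sys.Steps.one ⟨by simp, a5, a6, a7, a8⟩ rfl))), ?_⟩
      simp only [I, P, Old, bSys, bOf, bSel, bTrans, Mv.app, e2, e1, e3]
      refine ⟨_, _, rfl, by simp [b1, res_succ], b2, by simp, by simp, by simp, ?_, ?_, ?_,
        by simp, ?_, ?_, ?_, ?_⟩
      · cases par <;> simp [hd1, hd2, hd3]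
      · by_cases hl : l.r = Fin.last M
        · rw [div_succ_last (b1 ▸ hl), pr, ← hw, ← hz]
          by_cases hw0 : w = 0 <;> cases par <;> simp [hd1, hd2, hd3, hl, hw0, Mv.app]
        · rw [div_succ_nlast (b1 ▸ hl), ← hw]
          cases par <;> simp [hd1, hd2, hd3, hl, Mv.app]
      · by_cases hl : l.r = Fin.last M
        · rw [div_succ_last (b1 ▸ hl), pr, ← hw, ← hz]
          by_cases hw0 : w = 0 <;> cases par <;> simp [hd1, hd2, hd3, hl, hw0, Mv.app]
        · rw [div_succ_nlast (b1 ▸ hl), ← hz]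
          cases par <;> simp [hd1, hd2, hd3, hl, Mv.app]
      · intro k t
        by_cases h : k = n
        · rw [if_pos h, h]; rfl
        · rw [if_neg h]; exact a5 k t
      · by_cases h : 0 = n
        · rw [if_pos h, ← h]; exact a6
        · rw [if_neg h]; exact a6
      · by_cases h : 0 = n
        · rw [if_pos h, ← h]; exact a7
        · rw [if_neg h]; exact a7
      · intro k hk t
        by_cases h : k = n
        · rw [if_pos h, h]; rfl
        · rw [if_neg h]; exact a8 k (by omega) t)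
    (fun n z hz => ⟨hz.1, hz.2.1⟩) (x := ⟨.lim, hd, C⟩) ⟨by simp, ho⟩ (by
      simp only [I, P, Old, bSys, bOf, bSel, bTrans, hh, hp, hd1, e0, e00, Mv.app, if_true,
        if_false, Bool.false_eq_true]
      refine ⟨_, _, rfl, by simp [res], rfl, rfl, by simp, by simp, by simp, by simp [pr],
        by simp [pr], by simp, fun k t => ?_, rfl, rfl, by simp⟩
      split_ifs with h
      · subst h; rfl
      · exact ho k t)
  exact ⟨h1, fun n t => h2 (.old t, n) _ 0 (fun _ _ z hz => hz.2.1 n t),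
    h2 (.psi, 0) _ 0 (fun _ _ z hz => hz.2.2.1), h2 (.d1, 0) _ 0 (fun _ _ z hz => hz.2.2.2.1),
    fun n t => h2 (.new t, n) _ (n + 1) (fun _ hk z hz => hz.2.2.2.2 n (by omega) t)⟩

theorem phase2 (x : BC K T G M) (m m' : ℕ → T → Bool) (hs : x.state = .lim)
    (hh : ∀ h, x.head h = 0)
    (hp : x.col 0 .psi = false) (hd1 : x.col 0 .d1 = true) (ho : Old x m)
    (hn : ∀ n t, x.col n (.new t) = m' n t) :
    (∀ s : O, s < ω → ((bSys (bOf D K)).run x s).state ≠ .halt ∧
      ∀ n t, ((bSys (bOf D K)).run x s).col n (.old t) = true → m n t = true ∨ m' n t = true) ∧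
    Old ((bSys (bOf D K)).run x ω) m' ∧ ((bSys (bOf D K)).run x ω).col 0 .psi = true := by
  obtain ⟨s, hd, C⟩ := x
  simp only at hs hh hp hd1 hn
  subst hs
  let P : ℕ → BC K T G M → Prop := fun n z => z.state ≠ .halt ∧
    (∀ k t, z.col k (.new t) = m' k t) ∧
    (∀ k t, z.col k (.old t) = if k < n then m' k t else m k t) ∧ (0 < n → z.col 0 .psi = true)
  let I : ℕ → BC K T G M → Prop := fun n z => z.state = .cp ∧ z.head .main = n ∧ P n z
  obtain ⟨h1, h2⟩ := Sys.omega_phase' (S := bSys (bOf D K)) I P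
    (fun z => z.state ≠ .halt ∧ ∀ n t, z.col n (.old t) = true → m n t = true ∨ m' n t = true) (by
      rintro n ⟨s, hd, C⟩ ⟨a1, a2, a4, a5, a6, a7⟩
      simp only at a1 a2 a4 a5 a6 a7
      subst a1
      refine ⟨_, Sys.Steps.one ⟨a4, a5, a6, a7⟩ rfl, ?_⟩
      simp only [I, P, bSys, bOf, bSel, bTrans, Mv.app, a2]
      refine ⟨trivial, by simp, by simp, fun k t => ?_, fun k t => ?_, fun _ => ?_⟩
      · by_cases h : k = n
        · rw [if_pos h, h]; exact a5 n t
        · rw [if_neg h]; exact a5 k t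
      · by_cases h : k = n
        · rw [if_pos h, h, if_pos (by omega)]; exact a5 n t
        · rw [if_neg h, a6]
          have : k < n + 1 ↔ k < n := by omega
          simp only [this]
      · by_cases h : 0 = n
        · rw [if_pos h]; rfl
        · rw [if_neg h]; exact a7 (by omega))
    (fun n z hz => ⟨hz.1, fun k t hk => by
      rw [hz.2.2.1] at hk
      split_ifs at hk
      · exact Or.inr hk
      · exact Or.inl hk⟩) (x := ⟨.lim, hd, C⟩)
      ⟨by simp, fun n t h => Or.inl ((ho n t).symm.trans h)⟩ (by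
      simp only [I, P, bSys, bOf, bSel, bTrans, hh, hp, hd1, Mv.app, if_true,
        if_false, Bool.false_eq_true, same_col]
      exact ⟨trivial, by simp, by simp, hn, fun k t => by simpa using ho k t, by simp⟩)
  refine ⟨h1, fun n t => h2 (.old t, n) _ (n + 1) (fun k hk z hz => ?_),
    h2 (.psi, 0) _ 1 (fun _ hk z hz => hz.2.2.2 (by omega))⟩
  exact (hz.2.2.1 n t).trans (if_pos (by omega))

theorem phaseI (y : ℕ → Bool) (C : ℕ → BT K T G → Bool)
    (hy : ∀ n j, C n (.inp j) = y (n * (K + 1) + j.1)) :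
    (bSys (bOf D K)).Alive ⟨.i1 0, fun _ => 0, C⟩ ω ∧
    Old ((bSys (bOf D K)).run ⟨.i1 0, fun _ => 0, C⟩ ω) (fun n => D.ini (decide (n = 0)) (y n)) ∧
      ((bSys (bOf D K)).run ⟨.i1 0, fun _ => 0, C⟩ ω).col 0 .psi = true := by
  let P : ℕ → BC K T G M → Prop := fun n z => z.state ≠ .halt ∧
    (∀ k j, z.col k (.inp j) = y (k * (K + 1) + j.1)) ∧
    (∀ k, k < n → ∀ t, z.col k (.old t) = D.ini (decide (k = 0)) (y k) t) ∧
    (0 < n → z.col 0 .psi = true)
  let I : ℕ → BC K T G M → Prop := fun n z => z.state = .i1 (res K n) ∧ z.head .main = n ∧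
    z.head .nx = n / (K + 1) ∧ P n z
  obtain ⟨h1, h2⟩ := Sys.omega_phase (S := bSys (bOf D K)) I P (by
      rintro n ⟨s, hd, C⟩ ⟨a1, a2, a3, a4, a5, a6, a7⟩
      simp only at a1 a2 a3 a4 a5 a6 a7
      subst a1
      have e1 : C (n / (K + 1)) (.inp (res K n)) = y n := by
        rw [a5]
        congr 1
        simp only [res]
        rw [mul_comm]
        exact Nat.div_add_mod n (K + 1)
      let hd1 : HH → ℕ := fun h => if h = .nx then
        (if res K n = Fin.last K then Mv.R else Mv.S).app (n / (K + 1)) else hd h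
      have s1 : (bSys (bOf D K)).step ⟨.i1 (res K n), hd, C⟩ = ⟨.i2 (res K n) (y n), hd1, C⟩ := by
        simp only [bSys, bOf, bSel, bTrans, a3, e1, same_col, hd1]
      have e2 : hd1 .main = n := by simp [hd1, a2]
      refine ⟨_, Sys.Steps.cons ⟨a4, a5, a6, a7⟩ s1 (Sys.Steps.one ⟨by simp, a5, a6, a7⟩ rfl), ?_⟩
      simp only [I, P, bSys, bOf, bSel, bTrans, Mv.app, e2]
      refine ⟨by rw [res_succ], by simp, ?_, by simp, fun k t => ?_, fun k hk t => ?_, fun _ => ?_⟩
      · by_cases hl : res K n = Fin.last K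
        · rw [div_succ_last hl]; simp [hd1, hl, Mv.app]
        · rw [div_succ_nlast hl]; simp [hd1, hl, Mv.app]
      · by_cases h : k = n
        · rw [if_pos h, h]; exact a5 n t
        · rw [if_neg h]; exact a5 k t
      · by_cases h : k = n
        · rw [if_pos h, h]; rfl
        · rw [if_neg h]; exact a6 k (by omega) t
      · by_cases h : 0 = n
        · rw [if_pos h]; rfl
        · rw [if_neg h]; exact a7 (by omega)) (x := ⟨.i1 0, fun _ => 0, C⟩)
      ⟨by simp [res], rfl, by simp, by simp, hy, by simp, by simp⟩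
  refine ⟨fun s hs => ?_, fun n t => h2 (.old t, n) _ (n + 1) (fun k hk z hz => ?_),
    h2 (.psi, 0) _ 1 (fun _ hk z hz => hz.2.2.2 (by omega))⟩
  · obtain ⟨n, hn⟩ := h1 s hs
    exact hn.1
  · exact hz.2.2.1 n (by omega) t

def RM (x : BC K T G M) (m : ℕ → T → Bool) : Prop :=
  x.state = .lim ∧ (∀ h, x.head h = 0) ∧ x.col 0 .psi = true ∧ Old x m

theorem run_lim_state (x : BC K T G M) {l : O} (hl : IsSuccLimit l) :
    ((bSys (bOf D K)).run x l).state = .lim ∧ ∀ h, ((bSys (bOf D K)).run x l).head h = 0 := by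
  rw [Sys.run_limit_eq _ _ hl]
  exact ⟨rfl, fun _ => rfl⟩

theorem simM : Sim (bSys (bOf D K)) (mSys D) RM (fun i => (.old i.1, i.2)) {(.psi, 0)}
    (· = ω * 3) where
  dflt := ⟨_, rfl, mul_pos omega0_pos (by norm_num)⟩
  cel := by
    rintro x m ⟨-, -, -, h⟩ ⟨t, n⟩
    exact h n t
  fl := by
    rintro x m ⟨-, -, h, -⟩ j hj
    rw [Set.mem_singleton_iff.1 hj]
    exact h
  blk := by
    rintro x m ⟨h1, h2, h3, h4⟩ hq
    obtain ⟨a1, a2, a3, a4, a5⟩ := phase0 D x m h1 h2 h3 h4 hq
    obtain ⟨a6, a7⟩ := run_lim_state D x isSuccLimit_omega0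
    obtain ⟨b1, b2, b3, b4, b5⟩ := phase1 D _ m a6 a7 a3 a4 a2 a5
    obtain ⟨b6, b7⟩ := run_lim_state D ((bSys (bOf D K)).run x ω) isSuccLimit_omega0
    obtain ⟨c1, c2, c3⟩ := phase2 D _ m _ b6 b7 b3 b4 b2 b5
    obtain ⟨c6, c7⟩ := run_lim_state D ((bSys (bOf D K)).run ((bSys (bOf D K)).run x ω) ω)
      isSuccLimit_omega0
    have e : (ω * 3 : O) = ω + ω + ω := by
      rw [show (3 : O) = 1 + 1 + 1 by norm_num, mul_add, mul_add, mul_one]
    have key : ∀ s, s < ω * 3 → ((bSys (bOf D K)).run x s).state ≠ .halt ∧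
        ∀ n t, ((bSys (bOf D K)).run x s).col n (.old t) = true →
          m n t = true ∨ (mSys D).step m n t = true := by
      intro s hs
      rw [e] at hs
      rcases lt_or_ge s ω with h | h
      · exact ⟨(a1 s h).1, fun n t h' => Or.inl (((a1 s h).2 n t).symm.trans h')⟩
      · obtain ⟨s, rfl⟩ := exists_add_of_le h
        rw [add_assoc, add_lt_add_iff_left] at hs
        rw [Sys.run_add]
        rcases lt_or_ge s ω with h | h
        · exact ⟨(b1 s h).1, fun n t h' => Or.inl (((b1 s h).2 n t).symm.trans h')⟩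
        · obtain ⟨s, rfl⟩ := exists_add_of_le h
          rw [add_lt_add_iff_left] at hs
          rw [Sys.run_add]
          exact c1 s hs
    refine ⟨_, rfl, mul_pos omega0_pos (by norm_num), ?_, fun s hs => (key s hs).1,
      fun i s hs => (key s hs).2 i.2 i.1⟩
    rw [e, Sys.run_add, Sys.run_add]
    exact ⟨c6, c7, c3, c2⟩
  hlt := by
    rintro ⟨s, hd, C⟩ m ⟨h1, h2, h3, h4⟩ hq
    simp only at h1 h2 h3
    subst h1
    replace hq : D.stop (m 0) := hq
    have e0 : C 0 ∘ BT.old = m 0 := funext (h4 0)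
    apply Sys.res_step _ (by simp [bSys, bOf])
    have := (bSys (bOf D K)).res_halt (a := (bSys (bOf D K)).step ⟨.lim, hd, C⟩)
      (by simp [bSys, bOf, bSel, bTrans, h2, h3, e0, hq])
    have e1 : (bSys (bOf D K)).out ((bSys (bOf D K)).step ⟨.lim, hd, C⟩) = (mSys D).out m := by
      simp [bSys, bOf, bSel, bTrans, h2, h3, e0, hq, mSys, BT.wr]
    rwa [e1] at this
  lim := fun v hv => ⟨rfl, fun _ => rfl, hv _ rfl, fun _ _ => rfl⟩

theorem presM (y : ℕ → Bool) (C : ℕ → BT K T G → Bool)
    (hy : ∀ n j, C n (.inp j) = y (n * (K + 1) + j.1)) {t : O} {b : Bool}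
    (h : (mSys D).PRes (fun n => D.ini (decide (n = 0)) (y n)) t b) :
    (bSys (bOf D K)).PRes ⟨(bOf D K).start, fun _ => 0, C⟩ (ω + ω * 3 * t) b := by
  obtain ⟨a1, a2, a3⟩ := phaseI D y C hy
  obtain ⟨a6, a7⟩ := run_lim_state D ⟨.i1 0, fun _ => 0, C⟩ isSuccLimit_omega0
  obtain ⟨len, h1, h2⟩ := (simM D).main ⟨a6, a7, a3, a2⟩
  obtain ⟨h3, h4⟩ := h2 t h.1
  rw [tau_const len _ h1] at h3 h4
  refine ⟨Sys.alive_add _ a1 h4, ?_⟩
  rw [Sys.run_add]
  apply Sys.res_step _ (by simp [bSys, bOf])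
  refine (simM D).res ?_ h.2
  have key : ∀ (x : BC K T G M) m, RM x m →
      RM ((bSys (bOf D K)).step ((bSys (bOf D K)).ovr x)) ((mSys D).ovr m) := by
    rintro ⟨s, hd, C⟩ m ⟨b1, b2, b3, b4⟩
    simp only at b1 b2 b3
    have e0 : C 0 ∘ BT.old = m 0 := funext (b4 0)
    simp only [RM, Old, bSys, bOf, bSel, bTrans, mSys, b2, e0, Mv.app]
    refine ⟨trivial, by simp, b3, fun n t => ?_⟩
    by_cases h : n = 0
    · rw [if_pos h, if_pos h]; rfl
    · rw [if_neg h, if_neg h]; exact b4 n t
  exact key _ _ h3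

end Pool.Agent.MP_bf5815_lc

end

section

namespace Pool.Agent.MP_bf5815_lc

open Ordinal Order
open scoped Classical

variable {T G : Type} {M : ℕ}

def embTr {K : ℕ} (g : T ⊕ T ⊕ G ⊕ Bool ⊕ Option HH → Fin (K + 1)) :
    BT K T G ⊕ Option HH → WT K
  | .inl (.inp j) => (j, 0)
  | .inl .outc => (0, 2)
  | .inl (.old t) => (g (.inl t), 1)
  | .inl (.new t) => (g (.inr (.inl t)), 1)
  | .inl (.tmp a) => (g (.inr (.inr (.inl a))), 1)
  | .inl .psi => (g (.inr (.inr (.inr (.inl true)))), 1)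
  | .inl .d1 => (g (.inr (.inr (.inr (.inl false)))), 1)
  | .inr o => (g (.inr (.inr (.inr (.inr o)))), 1)

theorem embTr_inj {K : ℕ} (g : T ⊕ T ⊕ G ⊕ Bool ⊕ Option HH → Fin (K + 1))
    (hg : Function.Injective g) : Function.Injective (embTr g) := by
  rintro (a | a) (b | b) h
  · cases a <;> cases b <;> simp_all [embTr, hg.eq_iff]
  · cases a <;> simp_all [embTr, hg.eq_iff]
  · cases b <;> simp_all [embTr, hg.eq_iff]
  · simp_all [embTr, hg.eq_iff]

theorem isSuccLimit_time (t : O) : IsSuccLimit (ω + ω * 3 * t) := by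
  rcases eq_or_ne t 0 with rfl | h
  · simp
  · apply isSuccLimit_add
    rw [mul_assoc]
    exact isSuccLimit_mul_left isSuccLimit_omega0
      (mul_pos (by norm_num) (pos_iff_ne_zero.2 h))

theorem recog_of_big [Finite T] [Finite G] (D : MProg T G M) (t : O) (x : ℕ → Bool)
    (h : ∀ y : ℕ → Bool, ∃ b, (mSys D).PRes (fun n => D.ini (decide (n = 0)) (y n)) t b ∧
      (b = true ↔ y = x)) : Recognizable (ω + ω * 3 * t) x := by
  obtain ⟨K, ⟨e⟩⟩ := Finite.exists_equiv_fin (T ⊕ T ⊕ G ⊕ Bool ⊕ Option HH)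
  let g : T ⊕ T ⊕ G ⊕ Bool ⊕ Option HH → Fin (K + 1) := fun a => (e a).castSucc
  have hg : Function.Injective g := fun a b hab => e.injective (Fin.castSucc_injective _ hab)
  refine ⟨_, inferInstance, rawOf ((aOf (bOf D K)).relabel (embTr g)), fun y => ?_⟩
  obtain ⟨b, h1, h2⟩ := h y
  have hl := isSuccLimit_time t
  obtain ⟨s, h3, h4⟩ := halts_of_pres _ (presA ((aOf (bOf D K)).relabel (embTr g)) rfl y hl
    (presRel _ _ (embTr_inj g hg) _ hl (presB _ _ hl (presM D y _ (fun n j => rfl) h1))))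
  exact ⟨s, h3, by rw [h4]; exact h2⟩

end Pool.Agent.MP_bf5815_lc

end
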